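import Pool.Agent.Q122.RV.Stmts

set_option autoImplicit false

namespace Pool.Agent.RV122

theorem asm (hGrp : TaskGrp) (hDeriv : TaskDeriv) (hMk : TaskMk) (hPatch : TaskPatch)
    (hDens : TaskDens) (hGlue : TaskGlue) (hInterp : TaskInterp) (hModel : TaskModel)
    (hSign : TaskSign) (hRevB : TaskRevB) (hPropP : TaskPropP) (hPropN : TaskPropN)
    (hPP : TaskPP) (hNN : TaskNN) (hNP : TaskNP) (hPN : TaskPN) (hNext : TaskNext)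
    (hStep : TaskStep) (hDouble : TaskDouble) (hSeq : TaskSeq) (hLimit : TaskLimit)
    (hHalf : TaskHalf) (hLeft : TaskLeft) (hStart : TaskStart) (hTwo : TaskTwo)
    (hGrow : TaskGrow) (hOsc : TaskOsc) :
    (∀ f : ℝ ≃o ℝ, Sm f → ∃ g₁ g₂ g₃ : ℝ ≃o ℝ, Sm g₁ ∧ Sm g₂ ∧ Sm g₃ ∧ Rev g₁ ∧ Rev g₂ ∧ Rev g₃ ∧
      f = g₁ * g₂ * g₃) ∧
    ∀ f : ℝ ≃o ℝ, Sm f → OscP f → OscM f → ∃ g₁ g₂ : ℝ ≃o ℝ, Sm g₁ ∧ Sm g₂ ∧ Rev g₁ ∧ Rev g₂ ∧
      f = g₁ * g₂ := by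
  have glue : Glue := hGlue hMk hDeriv hDens
  have patch : Patch := hPatch hMk hDeriv
  have interp : Interp := hInterp hGrp glue patch
  obtain ⟨B, hB⟩ := hModel hMk
  have step : Step := hStep hGrp hSign glue hPP hNN hNP hPN hPropP hPropN hNext
  have double : Double := hDouble step
  have half : Half := hHalf hGrp patch double hSeq hLimit
  have left : Left := hLeft half
  have two : ∀ F : ℝ ≃o ℝ, Sm F → OscP F → OscM F → ∃ g1 g2 : ℝ ≃o ℝ, Sm g1 ∧ Sm g2 ∧ Rev g1 ∧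
      Rev g2 ∧ F = g1 * g2 := fun F h1 h2 h3 =>
    hTwo hGrp hSign hRevB glue half left hStart B F hB h1 h2 h3
  refine ⟨?_, two⟩
  intro f hf
  obtain ⟨P, hP, o1, o2⟩ := hOsc hGrp hSign (hGrow interp) B f hB hf
  obtain ⟨⟨s1, r1⟩, s2, r2⟩ := hRevB hGrp B hB P hP
  obtain ⟨g1, g2, h1, h2, h3, h4, h5⟩ := two _ (hGrp.2.1 _ _ hf s2) o1 o2
  refine ⟨g1, g2, P⁻¹ * B * P, h1, h2, s1, h3, h4, r1, ?_⟩
  rw [← h5]
  group

end Pool.Agent.RV122
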