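import Mathlib

/-!
# MP_608a10_al, Q2: every element of `Diffeo⁺(ℝ)` is a product of three reversible elements

Blueprint. `O = (ℝ ≃o ℝ)` is a group with `(f * g) x = f (g x)`; `Sm f`: `f` and `f⁻¹` are smooth.
Dependencies are hypotheses inside the statements. `G = H⁻¹ * B * H`, `u = K⁻¹ * B * K`.
-/

set_option autoImplicit false

namespace Pool.Agent.RV122

open Set Filter Topology
open scoped ContDiff

abbrev O := ℝ ≃o ℝ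

/-- orientation preserving smooth diffeomorphism -/
def Sm (f : O) : Prop := ContDiff ℝ ∞ (fun x => f x) ∧ ContDiff ℝ ∞ (fun x => f⁻¹ x)

/-- reversible in `Diffeo⁺(ℝ)` -/
def Rev (g : O) : Prop := ∃ h : O, Sm h ∧ h * g * h⁻¹ = g⁻¹

/-- the model -/
structure Model (B : O) : Prop where
  sm : Sm B
  shift : ∀ x, B (x + 1) = B⁻¹ x + 1
  int : ∀ n : ℤ, B n = n
  pos : ∀ x, 0 < x → x < 1 → x < B x
  odd : ∀ x, B (-x) = -B x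

/-- the state of the construction: the relation `K (F (G x)) = B (K x)`, `G = H⁻¹ B H`, for `x ≤ a'` -/
structure St (B F H K : O) (a a' : ℝ) (i j : ℤ) : Prop where
  sF : Sm F
  sH : Sm H
  sK : Sm K
  lt : a < a'
  Ha : H a = i
  Ka : (j : ℝ) < K a
  Ka' : K a < j + 1
  rel : ∀ x ≤ a', K (F ((H⁻¹ * B * H) x)) = B (K x)

/-- `F - id` changes the sign cofinally at `+∞` -/
def OscP (F : O) : Prop := (∀ N : ℝ, ∃ b > N, F b < b) ∧ ∀ N : ℝ, ∃ b > N, b < F b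
/-- the same at `-∞` -/
def OscM (F : O) : Prop := (∀ N : ℝ, ∃ b < N, F b < b) ∧ ∀ N : ℝ, ∃ b < N, b < F b

/-! ### smooth order isomorphisms -/

def TaskGrp : Prop := Sm 1 ∧ (∀ f g : O, Sm f → Sm g → Sm (f * g)) ∧ (∀ f : O, Sm f → Sm f⁻¹) ∧
  ∀ c : ℝ, ∃ f : O, Sm f ∧ ∀ x, f x = x + c

/-- chain rule for `f⁻¹ (f x) = x`; monotone, so the derivative is `≥ 0` -/
def TaskDeriv : Prop := ∀ f : O, Sm f → ∀ x, 0 < deriv (fun y => f y) x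

/-- inverse function theorem (`ContDiffAt.to_localInverse`, or `HasStrictDerivAt.to_localInverse`,
`OpenPartialHomeomorph.contDiffAt_symm_deriv`) -/
def TaskMk : Prop := ∀ φ : ℝ → ℝ, ContDiff ℝ ∞ φ → (∀ x, 0 < deriv φ x) → Tendsto φ atTop atTop →
  Tendsto φ atBot atBot → ∃ f : O, Sm f ∧ ∀ x, f x = φ x

/-- a map which locally agrees with smooth diffeomorphisms and is unbounded on both sides
(locally strictly increasing, so strictly increasing; `TaskMk`, `TaskDeriv`) -/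
def TaskPatch : Prop := TaskMk → TaskDeriv → ∀ φ : ℝ → ℝ,
  (∀ x, ∃ f : O, Sm f ∧ ∀ᶠ y in 𝓝 x, φ y = f y) → (∀ N, ∃ x, N < φ x) → (∀ N, ∃ x, φ x < N) →
  ∃ f : O, Sm f ∧ ∀ x, f x = φ x

/-- density: a smooth positive function `ρ` with `ρ = p` on `(-∞, c]`, `ρ = q` on `[d, ∞)` and
`∫_c^d ρ = I`, for `0 < p, q` smooth, `0 < I` (`Real.smoothTransition`: `p (1 - s((x-c)/ε)) +
q s((x-d+ε)/ε) + η + κ bump`: for small `ε`, `η` the integral without the last term is `< I`; the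
term `η` multiplied with a cutoff; choose `κ` by linearity) -/
def TaskDens : Prop := ∀ (p q : ℝ → ℝ) (c d I : ℝ), ContDiff ℝ ∞ p → ContDiff ℝ ∞ q →
  (∀ x, 0 < p x) → (∀ x, 0 < q x) → c < d → 0 < I →
  ∃ ρ : ℝ → ℝ, ContDiff ℝ ∞ ρ ∧ (∀ x, 0 < ρ x) ∧ (∀ x ≤ c, ρ x = p x) ∧ (∀ x, d ≤ x → ρ x = q x) ∧
    ∫ x in c..d, ρ x = I

/-- gluing: `h x = f c + ∫_c^x ρ`, `p = f'`, `q = g'`, `I = g d - f c` -/
def TaskGlue : Prop := TaskMk → TaskDeriv → TaskDens → ∀ f g : O, Sm f → Sm g → ∀ c d : ℝ, c < d →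
  f c < g d → ∃ h : O, Sm h ∧ (∀ x ≤ c, h x = f x) ∧ ∀ x, d ≤ x → h x = g x

/-- conclusion of `TaskGlue` -/
def Glue : Prop := ∀ f g : O, Sm f → Sm g → ∀ c d : ℝ, c < d →
  f c < g d → ∃ h : O, Sm h ∧ (∀ x ≤ c, h x = f x) ∧ ∀ x, d ≤ x → h x = g x

/-- conclusion of `TaskPatch` -/
def Patch : Prop := ∀ φ : ℝ → ℝ,
  (∀ x, ∃ f : O, Sm f ∧ ∀ᶠ y in 𝓝 x, φ y = f y) → (∀ N, ∃ x, N < φ x) → (∀ N, ∃ x, φ x < N) →
  ∃ f : O, Sm f ∧ ∀ x, f x = φ x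

/-- interpolation: between `s n` and `s (n+1)` glue `x - s n + r n` (near `s n`) with
`x - s (n+1) + r (n+1)` (near `s (n+1)`), then patch -/
def TaskInterp : Prop := TaskGrp → Glue → Patch → ∀ s r : ℤ → ℝ, StrictMono s → StrictMono r →
  (∀ N, ∃ n, N < s n) → (∀ N, ∃ n, s n < N) → (∀ N, ∃ n, N < r n) → (∀ N, ∃ n, r n < N) →
  ∃ R : O, Sm R ∧ ∀ n, R (s n) = r n

/-! ### the model -/

/-- `B x = x + (2/π) arctan ((l-1) s c / (c² + l s²))`, `s = sin(πx/2)`, `c = cos(πx/2)`, `l > 1` near 1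
(for instance `l = 2`); the inverse has `1/l` in place of `l`. Or the flow of `sin (π x)`, or
`B x = x + ε ψ(x)` on `[0,1]` with a flat bump `ψ` (even about 1/2 is not needed), the inverse on
`[1,2]`, odd and 2-periodic extension -/
def TaskModel : Prop := TaskMk → ∃ B : O, Model B

def TaskSign : Prop := ∀ B : O, Model B → (∀ x, B (x + 2) = B x + 2) ∧ (∀ x, |B x - x| < 1) ∧
  ∀ (k : ℤ) (x : ℝ), (k : ℝ) < x → x < k + 1 → ((Even k → x < B x) ∧ (Odd k → B x < x))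

/-- `h = P⁻¹ T P`, `T` the translation by 1 -/
def TaskRevB : Prop := TaskGrp → ∀ B : O, Model B → ∀ P : O, Sm P →
  (Sm (P⁻¹ * B * P) ∧ Rev (P⁻¹ * B * P)) ∧ (Sm (P⁻¹ * B * P)⁻¹ ∧ Rev (P⁻¹ * B * P)⁻¹)

/-! ### propagation (pure iteration, no smoothness needed) -/

/-- `H' = B^n H G^(-n)`: if `H G = B H` on `(-∞, c]` then `B H G⁻¹` agrees with `H` on `(-∞, G c]`, so it
satisfies the relation on `(-∞, G c]`; iterate, `G^n c` passes `b'` -/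
def TaskPropP : Prop := TaskGrp → ∀ (B G H : O) (c b' : ℝ), Sm B → Sm G → Sm H → c ≤ b' →
  (∀ x ≤ c, H (G x) = B (H x)) → (∀ x, c ≤ x → x ≤ b' → x < G x) →
  ∃ H' : O, Sm H' ∧ (∀ x ≤ c, H' x = H x) ∧ ∀ x ≤ b', H' (G x) = B (H' x)

/-- `H' = B^(-n) H G^n` -/
def TaskPropN : Prop := TaskGrp → ∀ (B G H : O) (c b' : ℝ), Sm B → Sm G → Sm H → c ≤ b' →
  (∀ x ≤ c, H (G x) = B (H x)) → (∀ x, c ≤ x → x ≤ b' → G x < x) →
  ∃ H' : O, Sm H' ∧ (∀ x ≤ c, H' x = H x) ∧ ∀ x ≤ b', H' (G x) = B (H' x)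

/-! ### extension of `K` to the next fixed point `b` of `u = K⁻¹ B K`

In all four cases: choose `c ∈ (a, a']` with `H c < i + 1`, `K c < j + 1`; `u(c) := F (G c)`. -/

/-- conclusion of the extension; `lt` true: `F < u` on `[c, b']`, false: `u < F` there -/
def Ext (B F H K : O) (a a' : ℝ) (i j : ℤ) (lt : Prop) (N : ℝ) : Prop :=
  ∃ (c b b' : ℝ) (K1 : O), a < c ∧ c ≤ a' ∧ H c < i + 1 ∧ c < b ∧ N ≤ b ∧ b < b' ∧ Sm K1 ∧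
    (∀ x ≤ c, K1 x = K x) ∧ K1 b = j + 1 ∧ (∀ x ≤ c, (K1⁻¹ * B * K1) x = F ((H⁻¹ * B * H) x)) ∧
    ∀ x, c ≤ x → x ≤ b' → ((lt → F x < (K1⁻¹ * B * K1) x) ∧ (¬ lt → (K1⁻¹ * B * K1) x < F x))

/-- `i`, `j` even. `u(c) > c`, `u(c) > F c`. Choose `c2 > c` with `c2 < u(c)`, `F c2 < u(c)`; `b > N, u(c)` with
`F b < b`; `w ∈ (max (F b) u(c), b)`; `u0` = glue of `F * G` at `c` and a translation with value `w` at `c2`;
`K0 = B * K * u0⁻¹` (`= K` on `(-∞, u(c)]`, `K0 w = B (K c2) < j + 1`); `K1` = glue of `K0` at `w` and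
`x - b + j + 1` near `b`. Then `u1 c2 = w`. -/
def TaskPP : Prop := TaskGrp → TaskSign → Glue → ∀ (B F H K : O) (a a' : ℝ) (i j : ℤ), Model B →
  St B F H K a a' i j → OscP F → Even i → Even j → ∀ N, Ext B F H K a a' i j True N

/-- `i`, `j` odd. `u(c) < c`, `u(c) < F c`. Choose `b > N, F c, c` with `b < F b`; `q = F⁻¹ b`;
`w ∈ (u(c), min c (F c))`; `u0` = glue of `F * G` at `c` and a translation with value `w` at `q`;
`K0 = B⁻¹ * K * u0` (`= K` on `(-∞, c]`, `K0 q = B⁻¹ (K w) < j + 1`); `K1` = glue of `K0` at `q` and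
`x - b + j + 1` near `b`. `u1 = u0` on `(-∞, q]`; on `[q, b]`: `u1 x ≤ b ≤ F x`. -/
def TaskNN : Prop := TaskGrp → TaskSign → Glue → ∀ (B F H K : O) (a a' : ℝ) (i j : ℤ), Model B →
  St B F H K a a' i j → OscP F → Odd i → Odd j → ∀ N, Ext B F H K a a' i j False N

/-- `i` odd, `j` even. `c < u(c) < F c`; `b ∈ (u(c), F c)`; `K1` = glue of `K` at `u(c)` and `x - b + j + 1`
near `b`. -/
def TaskNP : Prop := TaskGrp → TaskSign → Glue → ∀ (B F H K : O) (a a' : ℝ) (i j : ℤ), Model B →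
  St B F H K a a' i j → Odd i → Even j → Ext B F H K a a' i j False a

/-- `i` even, `j` odd. `F c < u(c) < c < G c`; `b ∈ (c, G c)`; `K1` = glue of `K` at `c` and `x - b + j + 1`
near `b`; `u1 x ≥ u(c) = F (G c) > F b ≥ F x`. -/
def TaskPN : Prop := TaskGrp → TaskSign → Glue → ∀ (B F H K : O) (a a' : ℝ) (i j : ℤ), Model B →
  St B F H K a a' i j → Even i → Odd j → Ext B F H K a a' i j True a

/-- from `Ext` to the next state (of the system with `F⁻¹`, the roles of `H` and `K` exchanged):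
`G1 = F⁻¹ * K1⁻¹ * B * K1`, `H1` by propagation; `H1 b < i + 1` as `G1` has no fixed points in `(a, b']` -/
def TaskNext : Prop := TaskGrp → TaskSign → TaskPropP → TaskPropN →
  ∀ (B F H K : O) (a a' : ℝ) (i j : ℤ) (N : ℝ), Model B → St B F H K a a' i j →
  Ext B F H K a a' i j (Even i) N →
  ∃ (b b' : ℝ) (H1 K1 : O), a < b ∧ N ≤ b ∧ St B F⁻¹ K1 H1 b b' (j + 1) i ∧ (∀ x ≤ a, H1 x = H x) ∧
    ∀ x ≤ a, K1 x = K x

/-- one step, by cases -/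
def TaskStep : Prop := TaskGrp → TaskSign → Glue → TaskPP → TaskNN → TaskNP → TaskPN → TaskPropP →
  TaskPropN → TaskNext → ∀ (B F H K : O) (a a' : ℝ) (i j : ℤ) (N : ℝ), Model B →
  St B F H K a a' i j → OscP F →
  ∃ (b b' : ℝ) (H1 K1 : O), a < b ∧ (Even (i + j) → N ≤ b) ∧ St B F⁻¹ K1 H1 b b' (j + 1) i ∧
    (∀ x ≤ a, H1 x = H x) ∧ ∀ x ≤ a, K1 x = K x

/-- conclusion of `TaskStep` -/
def Step : Prop := ∀ (B F H K : O) (a a' : ℝ) (i j : ℤ) (N : ℝ), Model B →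
  St B F H K a a' i j → OscP F →
  ∃ (b b' : ℝ) (H1 K1 : O), a < b ∧ (Even (i + j) → N ≤ b) ∧ St B F⁻¹ K1 H1 b b' (j + 1) i ∧
    (∀ x ≤ a, H1 x = H x) ∧ ∀ x ≤ a, K1 x = K x

/-- two steps -/
def TaskDouble : Prop := Step → ∀ (B F H K : O) (a a' : ℝ) (i j : ℤ) (N : ℝ), Model B →
  St B F H K a a' i j → OscP F →
  ∃ (a2 a2' : ℝ) (H2 K2 : O), a < a2 ∧ N ≤ a2 ∧ St B F H2 K2 a2 a2' (i + 1) (j + 1) ∧
    (∀ x ≤ a, H2 x = H x) ∧ ∀ x ≤ a, K2 x = K x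

def Double : Prop := ∀ (B F H K : O) (a a' : ℝ) (i j : ℤ) (N : ℝ), Model B →
  St B F H K a a' i j → OscP F →
  ∃ (a2 a2' : ℝ) (H2 K2 : O), a < a2 ∧ N ≤ a2 ∧ St B F H2 K2 a2 a2' (i + 1) (j + 1) ∧
    (∀ x ≤ a, H2 x = H x) ∧ ∀ x ≤ a, K2 x = K x

/-- the sequences -/
def TaskSeq : Prop := Double → ∀ (B F H K : O) (a a' : ℝ) (i j : ℤ), Model B →
  St B F H K a a' i j → OscP F →
  ∃ (α α' : ℕ → ℝ) (h k : ℕ → O), α 0 = a ∧ h 0 = H ∧ k 0 = K ∧ StrictMono α ∧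
    (∀ n : ℕ, (n : ℝ) ≤ α (n + 1)) ∧ (∀ n : ℕ, St B F (h n) (k n) (α n) (α' n) (i + n) (j + n)) ∧
    ∀ n m : ℕ, n ≤ m → ∀ x ≤ α n, h m x = h n x ∧ k m x = k n x

/-- the limit: `h`, `k` eventually constant on every half line; `Patch` -/
def TaskLimit : Prop := Patch → TaskGrp → ∀ (B F : O) (i j : ℤ) (α α' : ℕ → ℝ) (h k : ℕ → O),
  StrictMono α → (∀ n : ℕ, (n : ℝ) ≤ α (n + 1)) →
  (∀ n : ℕ, St B F (h n) (k n) (α n) (α' n) (i + n) (j + n)) →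
  (∀ n m : ℕ, n ≤ m → ∀ x ≤ α n, h m x = h n x ∧ k m x = k n x) →
  ∃ H K : O, Sm H ∧ Sm K ∧ (∀ n : ℕ, ∀ x ≤ α n, H x = h n x ∧ K x = k n x) ∧
    ∀ x, K (F ((H⁻¹ * B * H) x)) = B (K x)

/-- half line theorem; assembly of the two previous ones -/
def TaskHalf : Prop := TaskGrp → Patch → Double → TaskSeq → TaskLimit →
  ∀ (B F H K : O) (a a' : ℝ) (i j : ℤ), Model B → St B F H K a a' i j → OscP F →
  ∃ H1 K1 : O, Sm H1 ∧ Sm K1 ∧ (∀ x ≤ a, H1 x = H x ∧ K1 x = K x) ∧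
    (∀ x, K1 (F ((H1⁻¹ * B * H1) x)) = B (K1 x)) ∧
    ∀ n : ℤ, i ≤ n → ∃ m : ℤ, (m : ℝ) < K1 (H1⁻¹ n) ∧ K1 (H1⁻¹ n) < m + 1

/-- conclusion of `TaskHalf` -/
def Half : Prop := ∀ (B F H K : O) (a a' : ℝ) (i j : ℤ), Model B → St B F H K a a' i j → OscP F →
  ∃ H1 K1 : O, Sm H1 ∧ Sm K1 ∧ (∀ x ≤ a, H1 x = H x ∧ K1 x = K x) ∧
    (∀ x, K1 (F ((H1⁻¹ * B * H1) x)) = B (K1 x)) ∧
    ∀ n : ℤ, i ≤ n → ∃ m : ℤ, (m : ℝ) < K1 (H1⁻¹ n) ∧ K1 (H1⁻¹ n) < m + 1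

/-- reflection: `f ↦ (x ↦ -f (-x))` is an automorphism of `O` which preserves `Sm` and `B` -/
def TaskLeft : Prop := Half → ∀ (B F H K : O) (a a' : ℝ) (i j : ℤ), Model B → Sm F → Sm H → Sm K →
  a' < a → H a = i → (j : ℝ) < K a → K a < j + 1 →
  (∀ x, a' ≤ x → K (F ((H⁻¹ * B * H) x)) = B (K x)) → OscM F →
  ∃ H1 K1 : O, Sm H1 ∧ Sm K1 ∧ (∀ x, a ≤ x → H1 x = H x ∧ K1 x = K x) ∧
    (∀ x, K1 (F ((H1⁻¹ * B * H1) x)) = B (K1 x)) ∧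
    ∀ n : ℤ, n ≤ i → ∃ m : ℤ, (m : ℝ) < K1 (H1⁻¹ n) ∧ K1 (H1⁻¹ n) < m + 1

/-- conclusion of `TaskLeft` -/
def Left : Prop := ∀ (B F H K : O) (a a' : ℝ) (i j : ℤ), Model B → Sm F → Sm H → Sm K →
  a' < a → H a = i → (j : ℝ) < K a → K a < j + 1 →
  (∀ x, a' ≤ x → K (F ((H⁻¹ * B * H) x)) = B (K x)) → OscM F →
  ∃ H1 K1 : O, Sm H1 ∧ Sm K1 ∧ (∀ x, a ≤ x → H1 x = H x ∧ K1 x = K x) ∧
    (∀ x, K1 (F ((H1⁻¹ * B * H1) x)) = B (K1 x)) ∧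
    ∀ n : ℤ, n ≤ i → ∃ m : ℤ, (m : ℝ) < K1 (H1⁻¹ n) ∧ K1 (H1⁻¹ n) < m + 1

/-- start: `F1 = F` on `(-∞, -C]`, `F1 = T⁻¹ B T B⁻¹` on `[C, ∞)` (glue), `T` the translation by 1/2; `H = 1`,
`K = T` satisfy the relation on `[C + 1, ∞)`; `Left`; then `H1, K1` satisfy the relation with `F` on
`(-∞, H1⁻¹ (n+1)]` if `H1⁻¹ (n+1) ≤ -C`: a state with `a = H1⁻¹ n` -/
def TaskStart : Prop := TaskGrp → TaskSign → Glue → Left → ∀ B F : O, Model B → Sm F → OscM F →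
  ∃ (H K : O) (a a' : ℝ) (i j : ℤ), St B F H K a a' i j

/-- a diffeomorphism which oscillates at both ends is a product of two reversible ones -/
def TaskTwo : Prop := TaskGrp → TaskSign → TaskRevB → Glue → Half → Left → TaskStart →
  ∀ B F : O, Model B → Sm F → OscP F → OscM F →
  ∃ g1 g2 : O, Sm g1 ∧ Sm g2 ∧ Rev g1 ∧ Rev g2 ∧ F = g1 * g2

/-- conclusion of `TaskInterp` -/
def Interp : Prop := ∀ s r : ℤ → ℝ, StrictMono s → StrictMono r →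
  (∀ N, ∃ n, N < s n) → (∀ N, ∃ n, s n < N) → (∀ N, ∃ n, N < r n) → (∀ N, ∃ n, r n < N) →
  ∃ R : O, Sm R ∧ ∀ n, R (s n) = r n

/-- `R (n δ / 2) = r n` with `r (n+1) > max (f, f⁻¹) (r n)`, `r n + 1` (recursion in both directions:
`r (n+1) = max .. + 1`, `r (n-1) = min (f, f⁻¹) (r n) - 1`) -/
def TaskGrow : Prop := Interp → ∀ (f : O) (δ : ℝ), 0 < δ →
  ∃ R : O, Sm R ∧ ∀ w, f (R w) < R (w + δ) ∧ f⁻¹ (R w) < R (w + δ)

/-- `P = R⁻¹`; `g = P⁻¹ B P`, `f g⁻¹` at `b = R (2k + 1/2)`: `g⁻¹ b = R (B⁻¹ (2k + 1/2))`,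
`2k + 1/2 - B⁻¹ (2k + 1/2) = δ1 > 0` does not depend on `k`, so `f (g⁻¹ b) < b`; at `b = R (2k - 1/2)`
`g⁻¹ b = R (B⁻¹ (2k - 1/2))`, `B⁻¹ (2k - 1/2) > 2k - 1/2`, so `g⁻¹ b > f⁻¹ b` -/
def TaskOsc : Prop := TaskGrp → TaskSign →
  (∀ (f : O) (δ : ℝ), 0 < δ → ∃ R : O, Sm R ∧ ∀ w, f (R w) < R (w + δ) ∧ f⁻¹ (R w) < R (w + δ)) →
  ∀ B f : O, Model B → Sm f → ∃ P : O, Sm P ∧ OscP (f * (P⁻¹ * B * P)⁻¹) ∧ OscM (f * (P⁻¹ * B * P)⁻¹)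

end Pool.Agent.RV122
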