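import Pool.Agent.Q122.RV.Stmts

/-! # Proof of `TaskDens` -/

set_option autoImplicit false

open Set Filter Topology MeasureTheory
open scoped ContDiff

namespace Pool.Agent.RV122.TaskDens

private theorem dct (A0 ψ : ℝ → ℝ) (c d : ℝ) (hA : Continuous A0) (hA0 : ∀ x, 0 < A0 x)
    (hψ : Continuous ψ) (hψ0 : ∀ x, 0 ≤ ψ x) (hψ1 : ∀ x ∈ Ioo c d, 0 < ψ x) (hcd : c < d) :
    Tendsto (fun n : ℕ => ∫ x in c..d, A0 x * Real.exp (-(n * ψ x))) atTop (𝓝 0) := by
  have h0 : (0 : ℝ) = ∫ _x in c..d, (0 : ℝ) := by simp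
  rw [h0]
  apply intervalIntegral.tendsto_integral_filter_of_dominated_convergence A0
  · filter_upwards with n
    exact (by fun_prop : Continuous fun x => A0 x * Real.exp (-(n * ψ x))).aestronglyMeasurable
  · filter_upwards with n
    filter_upwards with x _
    rw [Real.norm_of_nonneg (by have := hA0 x; positivity)]
    have h1 : Real.exp (-(n * ψ x)) ≤ 1 := by
      rw [Real.exp_le_one_iff]
      have : 0 ≤ (n : ℝ) * ψ x := mul_nonneg (Nat.cast_nonneg n) (hψ0 x)
      linarith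
    have := hA0 x
    nlinarith
  · exact hA.intervalIntegrable _ _
  · have hne : ∀ᵐ x : ℝ, x ≠ d := by
      rw [ae_iff]
      simp
    filter_upwards [hne] with x hx hmem
    rw [uIoc_of_le hcd.le] at hmem
    have hp := hψ1 x ⟨hmem.1, lt_of_le_of_ne hmem.2 hx⟩
    have h2 : Tendsto (fun n : ℕ => (n : ℝ) * ψ x) atTop atTop :=
      tendsto_natCast_atTop_atTop.atTop_mul_const hp
    have h3 : Tendsto (fun n : ℕ => Real.exp (-(n * ψ x))) atTop (𝓝 0) :=
      Real.tendsto_exp_neg_atTop_nhds_zero.comp h2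
    have h4 := h3.const_mul (A0 x)
    rw [mul_zero] at h4
    exact h4

theorem main : Pool.Agent.RV122.TaskDens := by
  intro p q c d I hp hq hp0 hq0 hcd hI
  obtain ⟨s, hs⟩ : ∃ s : ℝ → ℝ, s = fun x => Real.smoothTransition ((x - c) / (d - c)) := ⟨_, rfl⟩
  obtain ⟨ψ, hψ⟩ : ∃ ψ : ℝ → ℝ, ψ = fun x =>
    Real.smoothTransition (x - c) * Real.smoothTransition (d - x) := ⟨_, rfl⟩
  have hdc : 0 < d - c := by linarith
  have hsC : ContDiff ℝ ∞ s := by
    rw [hs]
    exact Real.smoothTransition.contDiff.comp ((contDiff_id.sub contDiff_const).div_const _)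
  have hψC : ContDiff ℝ ∞ ψ := by
    rw [hψ]
    exact (Real.smoothTransition.contDiff.comp (contDiff_id.sub contDiff_const)).mul
      (Real.smoothTransition.contDiff.comp (contDiff_const.sub contDiff_id))
  have hs0 : ∀ x, 0 ≤ s x := fun x => by rw [hs]; exact Real.smoothTransition.nonneg _
  have hs1 : ∀ x, s x ≤ 1 := fun x => by rw [hs]; exact Real.smoothTransition.le_one _
  have hψ0 : ∀ x, 0 ≤ ψ x := fun x => by
    rw [hψ]
    exact mul_nonneg (Real.smoothTransition.nonneg _) (Real.smoothTransition.nonneg _)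
  have hψp : ∀ x ∈ Ioo c d, 0 < ψ x := fun x hx => by
    rw [hψ]
    exact mul_pos (Real.smoothTransition.pos_of_pos (by linarith [hx.1]))
      (Real.smoothTransition.pos_of_pos (by linarith [hx.2]))
  have hψc : ∀ x ≤ c, ψ x = 0 := fun x hx => by
    rw [hψ]
    simp only
    rw [Real.smoothTransition.zero_of_nonpos (by linarith), zero_mul]
  have hψd : ∀ x, d ≤ x → ψ x = 0 := fun x hx => by
    rw [hψ]
    simp only
    rw [Real.smoothTransition.zero_of_nonpos (x := d - x) (by linarith), mul_zero]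
  have hsc : ∀ x ≤ c, s x = 0 := fun x hx => by
    rw [hs]
    exact Real.smoothTransition.zero_of_nonpos (div_nonpos_of_nonpos_of_nonneg (by linarith) hdc.le)
  have hsd : ∀ x, d ≤ x → s x = 1 := fun x hx => by
    rw [hs]
    exact Real.smoothTransition.one_of_one_le (by rw [le_div_iff₀ hdc]; linarith)
  obtain ⟨A0, hA0⟩ : ∃ A0 : ℝ → ℝ, A0 = fun x => p x * (1 - s x) + q x * s x := ⟨_, rfl⟩
  have hAC : ContDiff ℝ ∞ A0 := by
    rw [hA0]
    exact (hp.mul (contDiff_const.sub hsC)).add (hq.mul hsC)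
  have hApos : ∀ x, 0 < A0 x := fun x => by
    rw [hA0]
    simp only
    have h1 := hp0 x
    have h2 := hq0 x
    rcases (hs0 x).eq_or_lt with h3 | h3
    · rw [← h3]
      simpa using h1
    · have h4 : 0 ≤ p x * (1 - s x) := mul_nonneg h1.le (by linarith [hs1 x])
      have h5 : 0 < q x * s x := mul_pos h2 h3
      linarith
  have ht := dct A0 ψ c d hAC.continuous hApos hψC.continuous hψ0 hψp hcd
  obtain ⟨n, hn⟩ := (ht.eventually_lt_const hI).exists
  have hΨ : 0 < ∫ x in c..d, ψ x :=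
    intervalIntegral.intervalIntegral_pos_of_pos_on (hψC.continuous.intervalIntegrable _ _) hψp hcd
  obtain ⟨J, hJ⟩ : ∃ J, J = ∫ x in c..d, A0 x * Real.exp (-(n * ψ x)) := ⟨_, rfl⟩
  obtain ⟨Ψ, hΨ'⟩ : ∃ Ψ, Ψ = ∫ x in c..d, ψ x := ⟨_, rfl⟩
  rw [← hJ] at hn
  rw [← hΨ'] at hΨ
  obtain ⟨κ, hκ⟩ : ∃ κ, κ = (I - J) / Ψ := ⟨_, rfl⟩
  have hκ0 : 0 < κ := by rw [hκ]; exact div_pos (by linarith) hΨ
  refine ⟨fun x => A0 x * Real.exp (-(n * ψ x)) + κ * ψ x, ?_, ?_, ?_, ?_, ?_⟩
  · exact (hAC.mul (Real.contDiff_exp.comp (contDiff_const.mul hψC).neg)).add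
      (contDiff_const.mul hψC)
  · intro x
    have h1 := hApos x
    have h2 := hψ0 x
    positivity
  · intro x hx
    simp only
    rw [hψc x hx, hA0]
    simp only
    rw [hsc x hx]
    simp
  · intro x hx
    simp only
    rw [hψd x hx, hA0]
    simp only
    rw [hsd x hx]
    simp
  · have c1 : Continuous fun x => A0 x * Real.exp (-(n * ψ x)) := by
      have := hAC.continuous
      have := hψC.continuous
      fun_prop
    have c2 : Continuous fun x => κ * ψ x := continuous_const.mul hψC.continuous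
    change ∫ x in c..d, (A0 x * Real.exp (-(n * ψ x)) + κ * ψ x) = I
    rw [intervalIntegral.integral_add (c1.intervalIntegrable _ _) (c2.intervalIntegrable _ _),
      intervalIntegral.integral_const_mul, ← hJ, ← hΨ', hκ, div_mul_cancel₀ _ hΨ.ne']
    ring

end Pool.Agent.RV122.TaskDens
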