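import Pool.Agent.Q122.RV.Stmts

/-! RV.TaskDeriv (author: helper119). -/

set_option autoImplicit false

namespace Pool.Agent.RV122.TaskDeriv

open Set Filter Topology Pool.Agent.RV122
open scoped ContDiff

theorem main : Pool.Agent.RV122.TaskDeriv := by
  intro f hf x
  have h1 : HasDerivAt (fun y => f y) (deriv (fun y => f y) x) x :=
    ((hf.1.differentiable (by simp)) x).hasDerivAt
  have h2 : HasDerivAt (fun y => f⁻¹ y) (deriv (fun y => f⁻¹ y) (f x)) (f x) :=
    ((hf.2.differentiable (by simp)) (f x)).hasDerivAt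
  have h3 := HasDerivAt.comp x h2 h1
  have h4 : ((fun y => f⁻¹ y) ∘ fun y => f y) = id := by
    funext y
    exact f.symm_apply_apply y
  rw [h4] at h3
  have h5 := h3.unique (hasDerivAt_id x)
  have h6 : deriv (fun y => f y) x ≠ 0 := by
    intro h
    rw [h, mul_zero] at h5
    exact zero_ne_one h5
  have h7 : 0 ≤ deriv (fun y => f y) x := by
    have hm : Monotone (fun y => f y) := f.monotone
    exact hm.deriv_nonneg
  exact lt_of_le_of_ne h7 (Ne.symm h6)

end Pool.Agent.RV122.TaskDeriv
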