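import Pool.Agent.Q122.RV.Stmts

/-! `TaskDouble`: two steps. -/

set_option autoImplicit false

namespace Pool.Agent.RV122.TaskDouble

open Pool.Agent.RV122
open Set Filter Topology
open scoped ContDiff

theorem inv_app (F : O) (x : ℝ) : F⁻¹ (F x) = x := by
  show (F⁻¹ * F) x = x
  rw [inv_mul_cancel]
  rfl

theorem osc_inv (F : O) (h : OscP F) : OscP F⁻¹ := by
  refine ⟨fun N => ?_, fun N => ?_⟩
  · obtain ⟨b, hb, hF⟩ := h.2 N
    refine ⟨b, hb, ?_⟩
    have := (F⁻¹ : O).strictMono hF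
    rwa [inv_app] at this
  · obtain ⟨b, hb, hF⟩ := h.1 N
    refine ⟨b, hb, ?_⟩
    have := (F⁻¹ : O).strictMono hF
    rwa [inv_app] at this

theorem main : Pool.Agent.RV122.TaskDouble := by
  intro hS B F H K a a' i j N hB hSt hO
  obtain ⟨b, b', H1, K1, h1, h2, h3, h4, h5⟩ := hS B F H K a a' i j N hB hSt hO
  obtain ⟨c, c', H2, K2, k1, k2, k3, k4, k5⟩ := hS B F⁻¹ K1 H1 b b' (j + 1) i N hB h3 (osc_inv F hO)
  rw [inv_inv] at k3
  refine ⟨c, c', K2, H2, h1.trans k1, ?_, k3, fun x hx => ?_, fun x hx => ?_⟩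
  · rcases Int.even_or_odd (i + j) with he | he
    · exact (h2 he).trans k1.le
    · apply k2
      have : j + 1 + i = (i + j) + 1 := by ring
      rw [this]
      exact he.add_one
  · rw [k5 x (hx.trans h1.le), h4 x hx]
  · rw [k4 x (hx.trans h1.le), h5 x hx]

end Pool.Agent.RV122.TaskDouble
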