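import Pool.Agent.Q122.RV.Stmts

set_option autoImplicit false

namespace Pool.Agent.RV122.TaskGlue

open Set Filter Topology
open scoped ContDiff
open Pool.Agent.RV122

theorem diff_of {f : ℝ → ℝ} (hf : ContDiff ℝ ∞ f) : Differentiable ℝ f :=
  hf.differentiable (by simp)

theorem smooth_deriv {f : ℝ → ℝ} (hf : ContDiff ℝ ∞ f) : ContDiff ℝ ∞ (deriv f) :=
  (contDiff_infty_iff_deriv.1 hf).2

theorem int_deriv {f : ℝ → ℝ} (hf : ContDiff ℝ ∞ f) (a b : ℝ) :
    ∫ x in a..b, deriv f x = f b - f a :=
  intervalIntegral.integral_deriv_eq_sub (fun x _ => diff_of hf x)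
    ((smooth_deriv hf).continuous.intervalIntegrable a b)

theorem main : Pool.Agent.RV122.TaskGlue := by
  intro hMk hDeriv hDens f g hf hg c d hcd hfg
  obtain ⟨ρ, hρ, hpos, hl, hr, hI⟩ := hDens (deriv fun x => f x) (deriv fun x => g x) c d (g d - f c)
    (smooth_deriv hf.1) (smooth_deriv hg.1) (hDeriv f hf) (hDeriv g hg) hcd (sub_pos.2 hfg)
  have hρc : Continuous ρ := hρ.continuous
  have hii : ∀ a b, IntervalIntegrable ρ MeasureTheory.volume a b := fun a b =>
    hρc.intervalIntegrable a b
  have hder : ∀ x, HasDerivAt (fun x => f c + ∫ t in c..x, ρ t) (ρ x) x := by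
    intro x
    exact (intervalIntegral.integral_hasDerivAt_right (hii c x)
      hρc.stronglyMeasurable.stronglyMeasurableAtFilter hρc.continuousAt).const_add _
  have hderiv : deriv (fun x => f c + ∫ t in c..x, ρ t) = ρ := funext fun x => (hder x).deriv
  have hsm : ContDiff ℝ ∞ (fun x => f c + ∫ t in c..x, ρ t) := by
    rw [contDiff_infty_iff_deriv, hderiv]
    exact ⟨fun x => (hder x).differentiableAt, hρ⟩
  have hleft : ∀ x ≤ c, f c + ∫ t in c..x, ρ t = f x := by
    intro x hx
    have h1 : ∫ t in c..x, ρ t = ∫ t in c..x, deriv (fun y => f y) t := by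
      refine intervalIntegral.integral_congr fun t ht => ?_
      rw [uIcc_of_ge hx] at ht
      exact hl t ht.2
    rw [h1, int_deriv hf.1]
    ring
  have hright : ∀ x, d ≤ x → f c + ∫ t in c..x, ρ t = g x := by
    intro x hx
    have h1 : ∫ t in d..x, ρ t = ∫ t in d..x, deriv (fun y => g y) t := by
      refine intervalIntegral.integral_congr fun t ht => ?_
      rw [uIcc_of_le hx] at ht
      exact hr t ht.1
    rw [← intervalIntegral.integral_add_adjacent_intervals (hii c d) (hii d x), hI, h1,
      int_deriv hg.1]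
    ring
  obtain ⟨h, hh, hhe⟩ := hMk (fun x => f c + ∫ t in c..x, ρ t) hsm
    (fun x => by rw [hderiv]; exact hpos x)
    (Tendsto.congr' ((eventually_ge_atTop d).mono fun x hx => (hright x hx).symm) g.tendsto_atTop)
    (Tendsto.congr' ((eventually_le_atBot c).mono fun x hx => (hleft x hx).symm) f.tendsto_atBot)
  exact ⟨h, hh, fun x hx => (hhe x).trans (hleft x hx), fun x hx => (hhe x).trans (hright x hx)⟩

end Pool.Agent.RV122.TaskGlue
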