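import Pool.Agent.Q122.RV.Stmts

/-!
# A smooth order isomorphism which grows faster than `f` and `f⁻¹`
-/

set_option autoImplicit false

namespace Pool.Agent.RV122.TaskGrow

open Set Filter Topology Pool.Agent.RV122

/-- one step upwards -/
noncomputable def U (f : O) (x : ℝ) : ℝ := max (max (f x) (f⁻¹ x)) x + 1

/-- one step downwards -/
noncomputable def D (f : O) (x : ℝ) : ℝ := min (min (f x) (f⁻¹ x)) x - 1

/-- the sequence -/
noncomputable def r (f : O) : ℤ → ℝ
  | Int.ofNat k => (U f)^[k] 0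
  | Int.negSucc k => (D f)^[k + 1] 0

lemma U_spec (f : O) (x : ℝ) : f x < U f x ∧ f⁻¹ x < U f x ∧ x + 1 ≤ U f x := by
  unfold U
  have h1 := le_max_left (max (f x) (f⁻¹ x)) x
  have h2 := le_max_left (f x) (f⁻¹ x)
  have h3 := le_max_right (f x) (f⁻¹ x)
  have h4 := le_max_right (max (f x) (f⁻¹ x)) x
  exact ⟨by linarith, by linarith, by linarith⟩

lemma D_spec (f : O) (x : ℝ) : f (D f x) < x ∧ f⁻¹ (D f x) < x ∧ D f x + 1 ≤ x := by
  have h1 : D f x < f⁻¹ x := by
    unfold D
    have := min_le_left (min (f x) (f⁻¹ x)) x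
    have := min_le_right (f x) (f⁻¹ x)
    linarith
  have h2 : D f x < f x := by
    unfold D
    have := min_le_left (min (f x) (f⁻¹ x)) x
    have := min_le_left (f x) (f⁻¹ x)
    linarith
  have h3 : D f x + 1 ≤ x := by
    unfold D
    have := min_le_right (min (f x) (f⁻¹ x)) x
    linarith
  refine ⟨?_, ?_, h3⟩
  · have h4 := f.strictMono h1
    have h5 : f (f⁻¹ x) = x := RelIso.apply_inv_self f x
    rw [h5] at h4
    exact h4
  · have h4 := (f⁻¹).strictMono h2
    have h5 : f⁻¹ (f x) = x := RelIso.inv_apply_self f x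
    rw [h5] at h4
    exact h4

lemma r_spec (f : O) (n : ℤ) : f (r f n) < r f (n + 1) ∧ f⁻¹ (r f n) < r f (n + 1) ∧
    r f n + 1 ≤ r f (n + 1) := by
  match n with
  | Int.ofNat k =>
    have h : r f (Int.ofNat k + 1) = U f (r f (Int.ofNat k)) := by
      show (U f)^[k + 1] 0 = U f ((U f)^[k] 0)
      rw [Function.iterate_succ_apply']
    rw [h]
    exact U_spec f _
  | Int.negSucc 0 =>
    have h : r f (Int.negSucc 0) = D f (r f (Int.negSucc 0 + 1)) := rfl
    rw [h]
    exact D_spec f _
  | Int.negSucc (k + 1) =>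
    have h : r f (Int.negSucc (k + 1)) = D f (r f (Int.negSucc (k + 1) + 1)) := by
      show (D f)^[k + 1 + 1] 0 = D f ((D f)^[k + 1] 0)
      rw [Function.iterate_succ_apply']
    rw [h]
    exact D_spec f _

lemma r_add (f : O) (n : ℤ) (k : ℕ) : r f n + k ≤ r f (n + k) := by
  induction k with
  | zero => simp
  | succ k ih =>
    have h := (r_spec f (n + k)).2.2
    have h2 : n + ((k + 1 : ℕ) : ℤ) = n + k + 1 := by push_cast; ring
    rw [h2]
    push_cast
    linarith

theorem main : Pool.Agent.RV122.TaskGrow := by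
  intro hI f δ hδ
  have hs : StrictMono (fun n : ℤ => (n : ℝ) * (δ / 2)) := by
    intro m n hmn
    have : (m : ℝ) < n := by exact_mod_cast hmn
    exact mul_lt_mul_of_pos_right this (by linarith)
  have hr : StrictMono (r f) := by
    apply strictMono_int_of_lt_succ
    intro n
    have := (r_spec f n).2.2
    linarith
  obtain ⟨R, hR, hRs⟩ := hI (fun n : ℤ => (n : ℝ) * (δ / 2)) (r f) hs hr
    (by
      intro N
      obtain ⟨n, hn⟩ := exists_nat_gt (N / (δ / 2))
      refine ⟨n, ?_⟩
      have := (div_lt_iff₀ (by linarith : (0 : ℝ) < δ / 2)).1 hn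
      exact_mod_cast this)
    (by
      intro N
      obtain ⟨n, hn⟩ := exists_nat_gt (-N / (δ / 2))
      refine ⟨-n, ?_⟩
      have := (div_lt_iff₀ (by linarith : (0 : ℝ) < δ / 2)).1 hn
      show (((-(n : ℤ)) : ℤ) : ℝ) * (δ / 2) < N
      push_cast
      linarith)
    (by
      intro N
      obtain ⟨n, hn⟩ := exists_nat_gt (N - r f 0)
      refine ⟨(0 : ℤ) + n, ?_⟩
      have := r_add f 0 n
      linarith)
    (by
      intro N
      obtain ⟨n, hn⟩ := exists_nat_gt (r f 0 - N)
      refine ⟨-n, ?_⟩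
      have := r_add f (-n) n
      rw [neg_add_cancel] at this
      linarith)
  refine ⟨R, hR, fun w => ?_⟩
  -- the interval of `w`
  have hδ2 : (0 : ℝ) < δ / 2 := by linarith
  set n := ⌊w / (δ / 2)⌋ with hn
  have h1 : w < ((n + 1 : ℤ) : ℝ) * (δ / 2) := by
    have := Int.lt_floor_add_one (w / (δ / 2))
    rw [← hn, div_lt_iff₀ hδ2] at this
    push_cast
    exact this
  have h2 : ((n + 1 + 1 : ℤ) : ℝ) * (δ / 2) ≤ w + δ := by
    have := Int.floor_le (w / (δ / 2))
    rw [← hn, le_div_iff₀ hδ2] at this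
    push_cast
    linarith
  have h3 : R w < r f (n + 1) := by
    have := R.strictMono h1
    rw [← hRs (n + 1)]
    exact this
  have h4 : r f (n + 1 + 1) ≤ R (w + δ) := by
    have := R.monotone h2
    rw [← hRs (n + 1 + 1)]
    exact this
  have h5 := r_spec f (n + 1)
  exact ⟨((f.strictMono h3).trans h5.1).trans_le h4, (((f⁻¹).strictMono h3).trans h5.2.1).trans_le h4⟩

end Pool.Agent.RV122.TaskGrow
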