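import Pool.Agent.Q122.RV.Stmts

namespace Pool.Agent.RV122.TaskGrp
open Pool.Agent.RV122
open scoped ContDiff

theorem main : Pool.Agent.RV122.TaskGrp := by
  refine ⟨⟨?_, ?_⟩, ?_, ?_, ?_⟩
  · show ContDiff ℝ ∞ (fun x : ℝ => x)
    exact contDiff_id
  · have h : (fun x => (1 : O)⁻¹ x) = fun x : ℝ => x := by
      funext x; rw [inv_one]; rfl
    rw [h]; exact contDiff_id
  · intro f g hf hg
    refine ⟨?_, ?_⟩
    · have h : (fun x => (f * g) x) = (fun x => f x) ∘ (fun x => g x) := by
        funext x; rfl
      rw [h]; exact hf.1.comp hg.1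
    · have h : (fun x => (f * g)⁻¹ x) = (fun x => g⁻¹ x) ∘ (fun x => f⁻¹ x) := by
        funext x; rw [mul_inv_rev]; rfl
      rw [h]; exact hg.2.comp hf.2
  · intro f hf
    refine ⟨hf.2, ?_⟩
    rw [inv_inv]; exact hf.1
  · intro c
    refine ⟨OrderIso.addRight c, ⟨?_, ?_⟩, fun x => rfl⟩
    · have h : (fun x => (OrderIso.addRight c : O) x) = fun x : ℝ => x + c := by
        funext x; rfl
      rw [h]; fun_prop
    · have h : (fun x => (OrderIso.addRight c : O)⁻¹ x) = fun x : ℝ => x + (-c) := by
        funext x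
        have h2 : (OrderIso.addRight c : O) (x + (-c)) = x := by
          show x + (-c) + c = x
          ring
        exact (OrderIso.addRight c : O).injective (by
          rw [h2]; exact (OrderIso.addRight c : O).apply_symm_apply x)
      rw [h]; fun_prop

end Pool.Agent.RV122.TaskGrp
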