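import Mathlib
import Pool.Agent.Q122.RV.Stmts

set_option autoImplicit false

namespace Pool.Agent.RV122.TaskHalf

open Set Filter Topology

theorem main : Pool.Agent.RV122.TaskHalf := by
  intro hG hP hD hS hL B F H K a a' i j hM hSt0 hosc
  obtain ⟨α, α', h, k, h0, hh0, hk0, hmono, hgrow, hSt, hagree⟩ := hS hD B F H K a a' i j hM hSt0 hosc
  obtain ⟨H1, K1, sH, sK, hlim, hrel⟩ := hL hP hG B F i j α α' h k hmono hgrow hSt hagree
  refine ⟨H1, K1, sH, sK, ?_, hrel, ?_⟩
  · intro x hx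
    have := hlim 0 x (by rw [h0]; exact hx)
    rw [hh0, hk0] at this
    exact this
  · intro n hn
    obtain ⟨N, hN⟩ : ∃ N : ℕ, n = i + N := ⟨(n - i).toNat, by omega⟩
    have hs := hSt N
    have h1 : H1 (α N) = (n : ℝ) := by
      rw [(hlim N (α N) le_rfl).1, hs.Ha, hN]
    have h2 : H1⁻¹ (n : ℝ) = α N := by
      rw [← h1]
      exact RelIso.inv_apply_self H1 (α N)
    refine ⟨j + N, ?_, ?_⟩
    · rw [h2, (hlim N (α N) le_rfl).2]
      exact hs.Ka
    · rw [h2, (hlim N (α N) le_rfl).2]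
      exact hs.Ka'

end Pool.Agent.RV122.TaskHalf
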