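import Pool.Agent.Q122.RV.Stmts

/-!
# MP_608a10_al, task `TaskInterp`: interpolation by smooth diffeomorphisms
-/

set_option autoImplicit false

namespace Pool.Agent.RV122.TaskInterp

open Set Filter Topology
open scoped ContDiff

theorem main : Pool.Agent.RV122.TaskInterp := by
  intro hG hGlue hPatch s r hs hr hs1 hs2 hr1 hr2
  have htr : ∀ c : ℝ, ∃ f : O, Sm f ∧ ∀ x, f x = x + c := hG.2.2.2
  choose tr htrs htrx using htr
  obtain ⟨δ, hδ⟩ : ∃ δ : ℤ → ℝ,
      δ = fun n => min (s (n + 1) - s n) (r (n + 1) - r n) / 3 := ⟨_, rfl⟩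
  have hsn : ∀ n, s n < s (n + 1) := fun n => hs (by omega)
  have hrn : ∀ n, r n < r (n + 1) := fun n => hr (by omega)
  have hδ0 : ∀ n, 0 < δ n := by
    intro n
    rw [hδ]
    have h1 : 0 < min (s (n + 1) - s n) (r (n + 1) - r n) :=
      lt_min (by linarith [hsn n]) (by linarith [hrn n])
    simp only
    linarith
  have hδs : ∀ n, 3 * δ n ≤ s (n + 1) - s n := by
    intro n
    rw [hδ]
    have h1 := min_le_left (s (n + 1) - s n) (r (n + 1) - r n)
    simp only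
    linarith
  have hδr : ∀ n, 3 * δ n ≤ r (n + 1) - r n := by
    intro n
    rw [hδ]
    have h1 := min_le_right (s (n + 1) - s n) (r (n + 1) - r n)
    simp only
    linarith
  have hh : ∀ n : ℤ, ∃ h : O, Sm h ∧ (∀ x ≤ s n + δ n, h x = x + (r n - s n)) ∧
      ∀ x, s (n + 1) - δ n ≤ x → h x = x + (r (n + 1) - s (n + 1)) := by
    intro n
    have e1 := hδ0 n
    have e2 := hδs n
    have e3 := hδr n
    obtain ⟨h, h1, h2, h3⟩ := hGlue (tr (r n - s n)) (tr (r (n + 1) - s (n + 1))) (htrs _)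
      (htrs _) (s n + δ n) (s (n + 1) - δ n) (by linarith) (by rw [htrx, htrx]; linarith)
    exact ⟨h, h1, fun x hx => by rw [h2 x hx, htrx], fun x hx => by rw [h3 x hx, htrx]⟩
  choose h hsm hl hrr using hh
  have hN : ∀ x : ℝ, ∃ n : ℤ, s n ≤ x ∧ x < s (n + 1) := by
    intro x
    obtain ⟨a, ha⟩ := hs1 x
    obtain ⟨b, hb⟩ := hs2 x
    obtain ⟨n, hn1, hn2⟩ := Int.exists_greatest_of_bdd (P := fun n => s n ≤ x)
      ⟨a, fun z hz => (hs.lt_iff_lt.1 (lt_of_le_of_lt hz ha)).le⟩ ⟨b, hb.le⟩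
    refine ⟨n, hn1, ?_⟩
    by_contra hcon
    have := hn2 (n + 1) (not_lt.1 hcon)
    omega
  choose N hN1 hN2 using hN
  have huniq : ∀ (x : ℝ) (n : ℤ), s n ≤ x → x < s (n + 1) → N x = n := by
    intro x n h1 h2
    have a1 := hs.lt_iff_lt.1 (lt_of_le_of_lt (hN1 x) h2)
    have a2 := hs.lt_iff_lt.1 (lt_of_le_of_lt h1 (hN2 x))
    omega
  obtain ⟨φ, hφ⟩ : ∃ φ : ℝ → ℝ, φ = fun x => h (N x) x := ⟨_, rfl⟩
  have hloc : ∀ x, ∀ᶠ y in 𝓝 x, φ y = h (N x) y := by
    intro x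
    generalize hn : N x = n
    have h1 : s n ≤ x := by rw [← hn]; exact hN1 x
    have h2 : x < s (n + 1) := by rw [← hn]; exact hN2 x
    have e1 := hδ0 (n - 1)
    have e2 := hδs (n - 1)
    rw [sub_add_cancel] at e2
    have e3 := hδ0 n
    have hopen : Ioo (s n - δ (n - 1)) (s (n + 1)) ∈ 𝓝 x :=
      isOpen_Ioo.mem_nhds ⟨by linarith, h2⟩
    filter_upwards [hopen] with y hy
    rw [hφ]
    simp only
    by_cases hyn : s n ≤ y
    · rw [huniq y n hyn hy.2]
    · have hy1 : y < s n := not_le.1 hyn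
      have hy2 : s (n - 1) ≤ y := by linarith [hy.1]
      have hy3 : N y = n - 1 := huniq y (n - 1) hy2 (by rw [sub_add_cancel]; exact hy1)
      rw [hy3, hl n y (by linarith)]
      have := hrr (n - 1) y (by rw [sub_add_cancel]; linarith [hy.1])
      rw [sub_add_cancel] at this
      exact this
  have hval : ∀ n, φ (s n) = r n := by
    intro n
    have e3 := hδ0 n
    rw [hφ]
    simp only
    rw [huniq (s n) n le_rfl (hsn n), hl n (s n) (by linarith)]
    ring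
  obtain ⟨f, hf1, hf2⟩ := hPatch φ (fun x => ⟨h (N x), hsm _, hloc x⟩)
    (fun M => by obtain ⟨n, hn⟩ := hr1 M; exact ⟨s n, by rw [hval]; exact hn⟩)
    (fun M => by obtain ⟨n, hn⟩ := hr2 M; exact ⟨s n, by rw [hval]; exact hn⟩)
  exact ⟨f, hf1, fun n => by rw [hf2, hval]⟩

end Pool.Agent.RV122.TaskInterp
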