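import Pool.Agent.Q122.RV.Stmts

/-! Proof of `TaskLeft` (MP_608a10_al), helper240: reflection. -/

set_option autoImplicit false

namespace Pool.Agent.RV122.TaskLeft

open Set Filter Topology Pool.Agent.RV122
open scoped ContDiff

/-- the reflected map -/
private def rf (f : O) : O where
  toFun x := -f (-x)
  invFun x := -f.symm (-x)
  left_inv x := by simp
  right_inv x := by simp
  map_rel_iff' := by
    intro a b
    simp

private theorem rf_apply (f : O) (x : ℝ) : rf f x = -f (-x) := rfl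

private theorem rf_inv_apply (f : O) (x : ℝ) : (rf f)⁻¹ x = -f⁻¹ (-x) := rfl

private theorem rf_Sm (f : O) (h : Sm f) : Sm (rf f) := by
  constructor
  · exact (h.1.comp contDiff_neg).neg
  · exact (h.2.comp contDiff_neg).neg

private theorem mul_ap (f g : O) (x : ℝ) : (f * g) x = f (g x) := rfl

theorem main : Pool.Agent.RV122.TaskLeft := by
  intro hHalf B F H K a a' i j hB hF hH hK haa Ha Ka Ka' hrel hosc
  have hBodd : ∀ x, B (-x) = -B x := hB.odd
  have hst : St B (rf F) (rf H) (rf K) (-a) (-a') (-i) (-j - 1) := by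
    refine ⟨rf_Sm F hF, rf_Sm H hH, rf_Sm K hK, by linarith, ?_, ?_, ?_, ?_⟩
    · rw [rf_apply, neg_neg, Ha]
      push_cast
      ring
    · rw [rf_apply, neg_neg]
      push_cast
      linarith
    · rw [rf_apply, neg_neg]
      push_cast
      linarith
    · intro x hx
      have h1 := hrel (-x) (by linarith)
      simp only [mul_ap, rf_apply, rf_inv_apply] at h1 ⊢
      have e1 : B (-H (-x)) = -B (H (-x)) := hBodd _
      rw [e1, neg_neg, neg_neg, neg_neg, h1, hBodd]
  have hoscP : OscP (rf F) := by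
    constructor
    · intro N
      obtain ⟨b, hb, hb2⟩ := hosc.2 (-N)
      refine ⟨-b, by linarith, ?_⟩
      rw [rf_apply, neg_neg]
      linarith
    · intro N
      obtain ⟨b, hb, hb2⟩ := hosc.1 (-N)
      refine ⟨-b, by linarith, ?_⟩
      rw [rf_apply, neg_neg]
      linarith
  obtain ⟨H1, K1, sH1, sK1, heq, hr, hn⟩ := hHalf B (rf F) (rf H) (rf K) (-a) (-a') (-i) (-j - 1)
    hB hst hoscP
  refine ⟨rf H1, rf K1, rf_Sm _ sH1, rf_Sm _ sK1, ?_, ?_, ?_⟩
  · intro x hx
    obtain ⟨h1, h2⟩ := heq (-x) (by linarith)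
    rw [rf_apply] at h1 h2
    rw [rf_apply, rf_apply, h1, h2]
    simp
  · intro x
    have h1 := hr (-x)
    simp only [mul_ap, rf_apply, rf_inv_apply] at h1 ⊢
    have e1 : B (-H1 (-x)) = -B (H1 (-x)) := hBodd _
    rw [e1, neg_neg]
    rw [hBodd, ← h1]
  · intro n hni
    obtain ⟨m, hm1, hm2⟩ := hn (-n) (by omega)
    refine ⟨-m - 1, ?_, ?_⟩
    · rw [rf_apply, rf_inv_apply, neg_neg]
      push_cast at hm1 hm2 ⊢
      linarith
    · rw [rf_apply, rf_inv_apply, neg_neg]
      push_cast at hm1 hm2 ⊢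
      linarith

end Pool.Agent.RV122.TaskLeft
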