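import Pool.Agent.Q122.RV.Stmts

/-! `TaskLimit` of the blueprint for MP_608a10_al (helper138). -/

set_option autoImplicit false

namespace Pool.Agent.RV122.TaskLimit
open Set Filter Topology
open scoped ContDiff
open Pool.Agent.RV122

/-- the limit of one sequence -/
private theorem lim_one (hP : Patch) (α : ℕ → ℝ) (c : ℝ) (h : ℕ → O)
    (hα : ∀ n : ℕ, (n : ℝ) ≤ α (n + 1))
    (hs : ∀ n, Sm (h n)) (hu : ∀ n : ℕ, c + n ≤ h n (α n))
    (hc : ∀ n m : ℕ, n ≤ m → ∀ x ≤ α n, h m x = h n x) :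
    ∃ H : O, Sm H ∧ ∀ n : ℕ, ∀ x ≤ α n, H x = h n x := by
  have hN : ∀ x : ℝ, x ≤ α (⌈x⌉₊ + 1) := fun x => (Nat.le_ceil x).trans (hα _)
  have key : ∀ (n : ℕ) (x : ℝ), x ≤ α n → h (⌈x⌉₊ + 1) x = h n x := by
    intro n x hx
    rcases le_total n (⌈x⌉₊ + 1) with h1 | h1
    · exact hc _ _ h1 x hx
    · exact (hc _ _ h1 x (hN x)).symm
  obtain ⟨H, hH, hH'⟩ := hP (fun x => h (⌈x⌉₊ + 1) x) (by
    intro x
    refine ⟨h (⌈x + 1⌉₊ + 1), hs _, ?_⟩
    filter_upwards [Iio_mem_nhds (lt_add_one x)] with y hy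
    exact key _ _ ((le_of_lt hy).trans (hN _))) (by
    intro N
    obtain ⟨n, hn⟩ := exists_nat_gt (N - c)
    refine ⟨α n, ?_⟩
    show N < h (⌈α n⌉₊ + 1) (α n)
    rw [key n _ le_rfl]
    have := hu n
    linarith) (by
    intro N
    refine ⟨(h 0).symm (min (N - 1) (h 0 (α 0))), ?_⟩
    show h _ _ < N
    have h1 : (h 0).symm (min (N - 1) (h 0 (α 0))) ≤ α 0 := by
      have h2 : (h 0).symm (min (N - 1) (h 0 (α 0))) ≤ (h 0).symm (h 0 (α 0)) :=
        (h 0).symm.monotone (min_le_right _ _)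
      rwa [OrderIso.symm_apply_apply] at h2
    rw [key 0 _ h1, OrderIso.apply_symm_apply]
    have := min_le_left (N - 1) (h 0 (α 0))
    linarith)
  exact ⟨H, hH, fun n x hx => (hH' x).trans (key n x hx)⟩

theorem main : Pool.Agent.RV122.TaskLimit := by
  intro hP _ B F i j α α' h k hα hα' hS hc
  obtain ⟨H, hH, hH'⟩ := lim_one hP α i h hα' (fun n => (hS n).sH) (fun n => by
    rw [(hS n).Ha]; push_cast; exact le_rfl) (fun n m hnm x hx => (hc n m hnm x hx).1)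
  obtain ⟨K, hK, hK'⟩ := lim_one hP α j k hα' (fun n => (hS n).sK) (fun n => by
    have := (hS n).Ka; push_cast at this; exact this.le) (fun n m hnm x hx => (hc n m hnm x hx).2)
  refine ⟨H, K, hH, hK, fun n x hx => ⟨hH' n x hx, hK' n x hx⟩, fun x => ?_⟩
  set y : ℝ := (H⁻¹ * B * H) x with hy
  have hy1 : H y = B (H x) := by
    rw [hy, RelIso.mul_apply, RelIso.mul_apply, RelIso.apply_inv_self]
  obtain ⟨n, hn⟩ := exists_nat_gt (max x (max y (F y)))
  have hn' : max x (max y (F y)) ≤ α (n + 1) := hn.le.trans (hα' n)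
  have h1 : x ≤ α (n + 1) := (le_max_left _ _).trans hn'
  have h2 : y ≤ α (n + 1) := ((le_max_left _ _).trans (le_max_right _ _)).trans hn'
  have h3 : F y ≤ α (n + 1) := ((le_max_right _ _).trans (le_max_right _ _)).trans hn'
  have h4 := (hS (n + 1)).rel x (h1.trans (hS (n + 1)).lt.le)
  rw [hH' _ _ h2, hH' _ _ h1] at hy1
  have h5 : ((h (n + 1))⁻¹ * B * (h (n + 1))) x = y := by
    rw [RelIso.mul_apply, RelIso.mul_apply, ← hy1, RelIso.inv_apply_self]
  rw [h5] at h4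
  rw [hK' _ _ h3, hK' _ _ h1]
  exact h4

end Pool.Agent.RV122.TaskLimit
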