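import Pool.Agent.Q122.RV.Stmts

set_option autoImplicit false

namespace Pool.Agent.RV122.TaskMk

open Set Filter Topology
open scoped ContDiff
open Pool.Agent.RV122

theorem main : Pool.Agent.RV122.TaskMk := by
  intro φ hφ hpos htop hbot
  have hmono : StrictMono φ := strictMono_of_deriv_pos hpos
  have hsurj : Function.Surjective φ := hφ.continuous.surjective htop hbot
  let f : O := hmono.orderIsoOfSurjective φ hsurj
  have hf : ∀ x, f x = φ x := fun x => rfl
  have hfφ : (fun x => f x) = φ := funext hf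
  refine ⟨f, ⟨by rw [hfφ]; exact hφ, ?_⟩, hf⟩
  have h1 : ∀ x, HasDerivAt (f.toHomeomorph : ℝ → ℝ) (deriv φ x) x := by
    intro x
    have h2 : HasDerivAt φ (deriv φ x) x :=
      ((hφ.differentiable (by simp)) x).hasDerivAt
    exact h2
  have h3 : ContDiff ℝ ∞ (f.toHomeomorph : ℝ → ℝ) := by
    show ContDiff ℝ ∞ (fun x => f x)
    rw [hfφ]
    exact hφ
  exact f.toHomeomorph.contDiff_symm_deriv (fun x => (hpos x).ne') h1 h3

end Pool.Agent.RV122.TaskMk
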