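import Pool.Agent.Q122.RV.Stmts

set_option autoImplicit false

namespace Pool.Agent.RV122.TaskModel

open Set Filter Topology Pool.Agent.RV122
open scoped ContDiff

/-- the model map -/
noncomputable def φ (x : ℝ) : ℝ :=
  x + 2 / Real.pi * Real.arctan (Real.sin (Real.pi * x) / (3 - Real.cos (Real.pi * x)))

/-- its inverse -/
noncomputable def χ (x : ℝ) : ℝ :=
  x - 2 / Real.pi * Real.arctan (Real.sin (Real.pi * x) / (3 + Real.cos (Real.pi * x)))

theorem den_pos (x : ℝ) : 0 < 3 - Real.cos (Real.pi * x) := by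
  have := Real.cos_le_one (Real.pi * x); linarith

theorem den_pos' (x : ℝ) : 0 < 3 + Real.cos (Real.pi * x) := by
  have := Real.neg_one_le_cos (Real.pi * x); linarith

theorem φ_smooth : ContDiff ℝ ∞ φ := by
  unfold φ
  refine contDiff_id.add (contDiff_const.mul (Real.contDiff_arctan.comp ?_))
  refine ContDiff.div ?_ ?_ (fun x => (den_pos x).ne')
  · exact Real.contDiff_sin.comp (contDiff_const.mul contDiff_id)
  · exact contDiff_const.sub (Real.contDiff_cos.comp (contDiff_const.mul contDiff_id))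

theorem φ_deriv (x : ℝ) : HasDerivAt φ (8 / (10 - 6 * Real.cos (Real.pi * x))) x := by
  have hl : HasDerivAt (fun y : ℝ => Real.pi * y) Real.pi x := by
    simpa using (hasDerivAt_id x).const_mul Real.pi
  have hs : HasDerivAt (fun y : ℝ => Real.sin (Real.pi * y))
      (Real.cos (Real.pi * x) * Real.pi) x := (Real.hasDerivAt_sin _).comp x hl
  have hc : HasDerivAt (fun y : ℝ => Real.cos (Real.pi * y))
      (-Real.sin (Real.pi * x) * Real.pi) x := (Real.hasDerivAt_cos _).comp x hl
  have hd : HasDerivAt (fun y : ℝ => 3 - Real.cos (Real.pi * y))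
      (-(-Real.sin (Real.pi * x) * Real.pi)) x := hc.const_sub 3
  have hq := hs.div hd (den_pos x).ne'
  have ha := hq.arctan
  have hf := (hasDerivAt_id x).add (ha.const_mul (2 / Real.pi))
  refine HasDerivAt.congr_deriv hf ?_
  have h1 := den_pos x
  have h2 : Real.sin (Real.pi * x) ^ 2 = 1 - Real.cos (Real.pi * x) ^ 2 := Real.sin_sq _
  have h3 : (0 : ℝ) < 10 - 6 * Real.cos (Real.pi * x) := by
    have := Real.cos_le_one (Real.pi * x); linarith
  have h4 : 1 + (Real.sin (Real.pi * x) / (3 - Real.cos (Real.pi * x))) ^ 2 =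
      (10 - 6 * Real.cos (Real.pi * x)) / (3 - Real.cos (Real.pi * x)) ^ 2 := by
    rw [div_pow, h2]
    field_simp
    ring
  have h5 : Real.cos (Real.pi * x) * Real.pi * (3 - Real.cos (Real.pi * x)) -
      Real.sin (Real.pi * x) * -(-Real.sin (Real.pi * x) * Real.pi) =
      Real.pi * (3 * Real.cos (Real.pi * x) - 1) := by
    have : Real.cos (Real.pi * x) * Real.pi * (3 - Real.cos (Real.pi * x)) -
      Real.sin (Real.pi * x) * -(-Real.sin (Real.pi * x) * Real.pi) =
      Real.pi * (3 * Real.cos (Real.pi * x) - Real.cos (Real.pi * x) ^ 2 -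
        Real.sin (Real.pi * x) ^ 2) := by ring
    rw [this, h2]; ring
  have h6 : ((fun y => Real.sin (Real.pi * y)) / fun y => 3 - Real.cos (Real.pi * y)) x =
      Real.sin (Real.pi * x) / (3 - Real.cos (Real.pi * x)) := rfl
  rw [h6, h4, h5]
  have hpi := Real.pi_pos.ne'
  field_simp
  ring

theorem φ_near (x : ℝ) : |φ x - x| ≤ 1 := by
  unfold φ
  rw [add_sub_cancel_left, abs_mul, abs_of_pos (by positivity : (0 : ℝ) < 2 / Real.pi)]
  have h1 : |Real.arctan (Real.sin (Real.pi * x) / (3 - Real.cos (Real.pi * x)))| ≤ Real.pi / 2 := by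
    rw [abs_le]
    exact ⟨(Real.neg_pi_div_two_lt_arctan _).le, (Real.arctan_lt_pi_div_two _).le⟩
  calc 2 / Real.pi * _ ≤ 2 / Real.pi * (Real.pi / 2) := by gcongr
    _ = 1 := by have := Real.pi_pos.ne'; field_simp

theorem φχ (x : ℝ) : φ (χ x) = x := by
  set w := Real.sin (Real.pi * x) / (3 + Real.cos (Real.pi * x)) with hw
  have hd := den_pos' x
  have hS : Real.sin (Real.pi * x) = w * (3 + Real.cos (Real.pi * x)) := by
    rw [hw]; field_simp
  have hpi := Real.pi_pos.ne'
  have hχ : Real.pi * χ x = Real.pi * x - 2 * Real.arctan w := by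
    unfold χ
    rw [← hw]
    field_simp
  have hb : 0 < 1 + w ^ 2 := by positivity
  have h2s : Real.sin (2 * Real.arctan w) = 2 * w / (1 + w ^ 2) := by
    rw [Real.sin_two_mul, Real.sin_arctan, Real.cos_arctan]
    have h := Real.mul_self_sqrt hb.le
    have h0 := (Real.sqrt_pos.mpr hb).ne'
    field_simp
    rw [Real.sq_sqrt (by positivity)]
  have h2c : Real.cos (2 * Real.arctan w) = (1 - w ^ 2) / (1 + w ^ 2) := by
    rw [Real.cos_two_mul, Real.cos_sq_arctan]
    field_simp
    ring
  have h3 : Real.sin (Real.pi * χ x) / (3 - Real.cos (Real.pi * χ x)) = w := by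
    rw [div_eq_iff (den_pos _).ne', hχ, Real.sin_sub, Real.cos_sub, h2s, h2c, hS]
    field_simp
    ring
  have h4 : φ (χ x) = χ x + 2 / Real.pi * Real.arctan w := by
    rw [φ, h3]
  rw [h4, χ, ← hw]
  ring

theorem main : Pool.Agent.RV122.TaskModel := by
  intro hMk
  obtain ⟨B, hB, hBφ⟩ := hMk φ φ_smooth (fun x => by
      rw [(φ_deriv x).deriv]
      have := Real.cos_le_one (Real.pi * x)
      have h3 : (0 : ℝ) < 10 - 6 * Real.cos (Real.pi * x) := by linarith
      positivity)
    (by
      refine tendsto_atTop_mono (f := fun x => x - 1) (fun x => ?_)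
        (tendsto_atTop_add_const_right _ _ tendsto_id)
      have := (abs_le.mp (φ_near x)).1
      linarith)
    (by
      have hb : ∀ x, φ x ≤ x + 1 := by
        intro x
        have := (abs_le.mp (φ_near x)).2
        linarith
      exact tendsto_atBot_mono hb (tendsto_atBot_add_const_right _ (1 : ℝ) tendsto_id))
  have hinv : ∀ x, B⁻¹ x = χ x := by
    intro x
    have h1 : B (χ x) = x := by rw [hBφ, φχ]
    have h2 : B⁻¹ (B (χ x)) = χ x := B.symm_apply_apply _
    rw [h1] at h2
    exact h2
  refine ⟨B, hB, ?_, ?_, ?_, ?_⟩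
  · intro x
    rw [hinv, hBφ, φ, χ]
    have h1 : Real.pi * (x + 1) = Real.pi * x + Real.pi := by ring
    rw [h1, Real.sin_add_pi, Real.cos_add_pi, sub_neg_eq_add, neg_div, Real.arctan_neg]
    ring
  · intro n
    rw [hBφ, φ]
    have : Real.sin (Real.pi * n) = 0 := by rw [mul_comm]; exact Real.sin_int_mul_pi n
    rw [this]
    simp
  · intro x h0 h1
    rw [hBφ, φ]
    have hs : 0 < Real.sin (Real.pi * x) :=
      Real.sin_pos_of_pos_of_lt_pi (by positivity) (by nlinarith [Real.pi_pos])
    have h2 : 0 < Real.arctan (Real.sin (Real.pi * x) / (3 - Real.cos (Real.pi * x))) := by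
      rw [Real.arctan_pos]
      exact div_pos hs (den_pos x)
    have h3 : 0 < 2 / Real.pi * Real.arctan (Real.sin (Real.pi * x) /
      (3 - Real.cos (Real.pi * x))) := by positivity
    linarith
  · intro x
    rw [hBφ, hBφ, φ, φ]
    rw [mul_neg, Real.sin_neg, Real.cos_neg, neg_div, Real.arctan_neg]
    ring

end Pool.Agent.RV122.TaskModel
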