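import Pool.Agent.Q122.RV.Stmts

set_option autoImplicit false

namespace Pool.Agent.RV122.TaskNN

open Set Filter Topology Pool.Agent.RV122

private theorem ai (f : O) (x : ℝ) : f (f⁻¹ x) = x := RelIso.apply_inv_self f x
private theorem ia (f : O) (x : ℝ) : f⁻¹ (f x) = x := RelIso.inv_apply_self f x
private theorem ml (f g : O) (x : ℝ) : (f * g) x = f (g x) := rfl

theorem main : Pool.Agent.RV122.TaskNN := by
  intro hGrp hSign hGlue B F H K a a' i j hB hst hosc hi hj N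
  obtain ⟨-, hmul, hinv, htr⟩ := hGrp
  obtain ⟨-, -, hsg⟩ := hSign B hB
  obtain ⟨sF, sH, sK, lt, Ha, Ka, Ka', rel⟩ := hst
  have h1 : a < H⁻¹ ((i : ℝ) + 1) := by
    rw [← H.lt_iff_lt, ai, Ha]; linarith
  have h2 : a < K⁻¹ ((j : ℝ) + 1) := by
    rw [← K.lt_iff_lt, ai]; exact Ka'
  obtain ⟨c, hac, hc⟩ := exists_between (lt_min lt (lt_min h1 h2))
  rw [lt_min_iff, lt_min_iff] at hc
  obtain ⟨hc1, hc2, hc3⟩ := hc
  have hHc : H c < (i : ℝ) + 1 := by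
    rw [← H.lt_iff_lt, ai] at hc2; exact hc2
  have hKc : K c < (j : ℝ) + 1 := by
    rw [← K.lt_iff_lt, ai] at hc3; exact hc3
  have hHc' : (i : ℝ) < H c := by rw [← Ha]; exact H.lt_iff_lt.2 hac
  have hKc' : (j : ℝ) < K c := Ka.trans (K.lt_iff_lt.2 hac)
  have hrc := rel c hc1.le
  have huc : F ((H⁻¹ * B * H) c) < c := by
    rw [← K.lt_iff_lt, hrc]
    exact (hsg j _ hKc' hKc).2 hj
  have hGc : (H⁻¹ * B * H) c < c := by
    rw [ml, ml, ← H.lt_iff_lt, ai]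
    exact (hsg i _ hHc' hHc).2 hi
  have huF : F ((H⁻¹ * B * H) c) < F c := F.lt_iff_lt.2 hGc
  obtain ⟨b, hb, hbF⟩ := hosc.2 (max N (max (F c) c))
  have hb : max N (max (F c) c) < b := hb
  rw [max_lt_iff, max_lt_iff] at hb
  obtain ⟨hb1, hb2, hb3⟩ := hb
  have hcq : c < F⁻¹ b := by rw [← F.lt_iff_lt, ai]; exact hb2
  have hqb : F⁻¹ b < b := by rw [← F.lt_iff_lt, ai]; exact hbF
  obtain ⟨w, hw1, hw2⟩ := exists_between (lt_min huc huF)
  rw [lt_min_iff] at hw2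
  obtain ⟨hwc, hwF⟩ := hw2
  have sG : Sm (H⁻¹ * B * H) := hmul _ _ (hmul _ _ (hinv _ sH) hB.sm) sH
  obtain ⟨t, st, ht⟩ := htr (w - F⁻¹ b)
  have htq : t (F⁻¹ b) = w := by rw [ht]; ring
  obtain ⟨u0, su0, hu1, hu2⟩ := hGlue (F * (H⁻¹ * B * H)) t (hmul _ _ sF sG) st c (F⁻¹ b) hcq (by
    rw [htq, ml]; exact hw1)
  have hu0q : u0 (F⁻¹ b) = w := by rw [hu2 _ le_rfl, htq]
  have hBj : B⁻¹ ((j : ℝ) + 1) = (j : ℝ) + 1 := by
    have h := hB.int (j + 1)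
    push_cast at h
    conv_lhs => rw [← h]
    rw [ia]
  have hBj' : B ((j : ℝ) + 1) = (j : ℝ) + 1 := by
    have h := hB.int (j + 1)
    push_cast at h
    exact h
  obtain ⟨t', st', ht'⟩ := htr (-b + j + 1)
  have htb : t' b = (j : ℝ) + 1 := by rw [ht']; ring
  have hK0q : (B⁻¹ * K * u0) (F⁻¹ b) < (j : ℝ) + 1 := by
    rw [ml, ml, hu0q, ← hBj]
    exact (B⁻¹).lt_iff_lt.2 ((K.lt_iff_lt.2 hwc).trans hKc)
  obtain ⟨K1, sK1, hk1, hk2⟩ := hGlue (B⁻¹ * K * u0) t'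
    (hmul _ _ (hmul _ _ (hinv _ hB.sm) sK) su0) st' (F⁻¹ b) b hqb (by rw [htb]; exact hK0q)
  have hKK : ∀ x ≤ c, K1 x = K x := by
    intro x hx
    rw [hk1 x (hx.trans hcq.le), ml, ml, hu1 x hx, ml, rel x (hx.trans hc1.le), ia]
  have hK1b : K1 b = (j : ℝ) + 1 := by rw [hk2 b le_rfl, htb]
  have hu : ∀ x ≤ F⁻¹ b, (K1⁻¹ * B * K1) x = u0 x := by
    intro x hx
    have h3 : u0 x ≤ c := by
      have := u0.le_iff_le.2 hx
      rw [hu0q] at this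
      exact this.trans hwc.le
    rw [ml, ml, hk1 x hx, ml, ml, ai, ← hKK _ h3, ia]
  have hub : (K1⁻¹ * B * K1) b = b := by
    rw [ml, ml, hK1b, hBj', ← hK1b, ia]
  have h5 : b < (K1⁻¹ * B * K1)⁻¹ (F b) := by
    rw [← (K1⁻¹ * B * K1).lt_iff_lt, ai, hub]
    exact hbF
  obtain ⟨b', hb', hb''⟩ := exists_between h5
  have h6 : (K1⁻¹ * B * K1) b' < F b := by
    rw [← (K1⁻¹ * B * K1).lt_iff_lt, ai] at hb''
    exact hb''
  refine ⟨c, b, b', K1, hac, hc1.le, hHc, hb3, hb1.le, hb', sK1, hKK, hK1b, ?_, ?_⟩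
  · intro x hx
    rw [hu x (hx.trans hcq.le), hu1 x hx, ml]
  · intro x hx1 hx2
    refine ⟨fun h => h.elim, fun _ => ?_⟩
    rcases le_or_gt x (F⁻¹ b) with h7 | h7
    · rw [hu x h7]
      have h8 : u0 x ≤ w := by
        have := u0.le_iff_le.2 h7
        rwa [hu0q] at this
      exact h8.trans_lt (hwF.trans_le (F.le_iff_le.2 hx1))
    · rcases le_or_gt x b with h9 | h9
      · have h10 : (K1⁻¹ * B * K1) x ≤ b := by
          have := (K1⁻¹ * B * K1).le_iff_le.2 h9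
          rwa [hub] at this
        refine h10.trans_lt ?_
        have := F.lt_iff_lt.2 h7
        rwa [ai] at this
      · exact ((K1⁻¹ * B * K1).le_iff_le.2 hx2).trans_lt (h6.trans (F.lt_iff_lt.2 h9))

end Pool.Agent.RV122.TaskNN
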