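import Pool.Agent.Q122.RV.Stmts

set_option autoImplicit false

namespace Pool.Agent.RV122.TaskNP

open Set Filter Topology
open Pool.Agent.RV122

theorem main : Pool.Agent.RV122.TaskNP := by
  intro hGrp hSign hGlue B F H K a a' i j hB hSt hi hj
  obtain ⟨-, -, hsg⟩ := hSign B hB
  have hmul : ∀ (f g : O) (x : ℝ), (f * g) x = f (g x) := fun _ _ _ => rfl
  have hinv1 : ∀ (f : O) (x : ℝ), f⁻¹ (f x) = x := fun f x => RelIso.inv_apply_self f x
  have hinv2 : ∀ (f : O) (x : ℝ), f (f⁻¹ x) = x := fun f x => RelIso.apply_inv_self f x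
  have hKa := hSt.Ka
  have hKa' := hSt.Ka'
  obtain ⟨c, hc1, hc2, hc3, hc4⟩ : ∃ c : ℝ, a < c ∧ c ≤ a' ∧ H c < i + 1 ∧ K c < j + 1 := by
    refine ⟨min a' (min (H⁻¹ ((i : ℝ) + 1 / 2)) (K⁻¹ ((K a + (j + 1)) / 2))), ?_, min_le_left _ _,
      ?_, ?_⟩
    · apply lt_min hSt.lt (lt_min ?_ ?_)
      · have : H a < H (H⁻¹ ((i : ℝ) + 1 / 2)) := by rw [hinv2, hSt.Ha]; linarith
        exact H.lt_iff_lt.1 this
      · have : K a < K (K⁻¹ ((K a + (j + 1)) / 2)) := by rw [hinv2]; linarith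
        exact K.lt_iff_lt.1 this
    · have h1 := H.monotone ((min_le_right a'
        (min (H⁻¹ ((i : ℝ) + 1 / 2)) (K⁻¹ ((K a + (j + 1)) / 2)))).trans (min_le_left _ _))
      rw [hinv2] at h1
      linarith
    · have h1 := K.monotone ((min_le_right a'
        (min (H⁻¹ ((i : ℝ) + 1 / 2)) (K⁻¹ ((K a + (j + 1)) / 2)))).trans (min_le_right _ _))
      rw [hinv2] at h1
      linarith
  have hHc : (i : ℝ) < H c := by
    have h1 := H.strictMono hc1
    rw [hSt.Ha] at h1
    exact h1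
  have hKc : (j : ℝ) < K c := hKa.trans (K.strictMono hc1)
  have hG : (H⁻¹ * B * H) c < c := by
    have h1 : B (H c) < H c := (hsg i (H c) hHc hc3).2 hi
    have h2 : H⁻¹ (B (H c)) < H⁻¹ (H c) := (H⁻¹ : O).strictMono h1
    rw [hinv1] at h2
    exact h2
  have hrel := hSt.rel c hc2
  obtain ⟨w, hw⟩ : ∃ w, w = F ((H⁻¹ * B * H) c) := ⟨_, rfl⟩
  rw [← hw] at hrel
  have hw1 : c < w := by
    have h1 : K c < B (K c) := (hsg j (K c) hKc hc4).1 hj
    rw [← hrel] at h1
    exact K.lt_iff_lt.1 h1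
  have hw2 : w < F c := by rw [hw]; exact F.strictMono hG
  have hBj : B ((j : ℝ) + 1) = j + 1 := by
    have := hB.int (j + 1)
    push_cast at this
    exact this
  have hw3 : K w < j + 1 := by
    have h1 := B.strictMono hc4
    rw [hBj] at h1
    rw [hrel]
    exact h1
  obtain ⟨b, hb1, hb2⟩ := exists_between hw2
  obtain ⟨tr, htr, htr2⟩ := hGrp.2.2.2 ((j : ℝ) + 1 - b)
  obtain ⟨K1, hK1, hK1a, hK1b⟩ := hGlue K tr hSt.sK htr w b hb1 (by rw [htr2]; linarith)
  have hK1bb : K1 b = j + 1 := by rw [hK1b b le_rfl, htr2]; ring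
  refine ⟨c, b, min ((b + F c) / 2) (b + 1 / 2), K1, hc1, hc2, hc3, by linarith, by linarith,
    lt_min (by linarith) (by linarith), hK1, ?_, hK1bb, ?_, ?_⟩
  · intro x hx
    exact hK1a x (by linarith)
  · intro x hx
    have h1 : K1 x = K x := hK1a x (by linarith)
    have h2 : F ((H⁻¹ * B * H) x) ≤ w := by
      rw [hw]
      exact F.monotone ((H⁻¹ * B * H : O).monotone hx)
    have h3 : K1 (F ((H⁻¹ * B * H) x)) = B (K x) := by
      rw [hK1a _ h2]
      exact hSt.rel x (hx.trans hc2)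
    have h4 : (K1⁻¹ * B * K1) x = K1⁻¹ (B (K1 x)) := rfl
    rw [h4, h1, ← h3, hinv1]
  · intro x hx1 hx2
    refine ⟨fun h => h.elim, fun _ => ?_⟩
    have h4 : (K1⁻¹ * B * K1) x = K1⁻¹ (B (K1 x)) := rfl
    rw [h4]
    have hFx : F c ≤ F x := F.monotone hx1
    rcases le_or_gt x b with h | h
    · have h1 : K1 x ≤ j + 1 := by
        have := K1.monotone h
        rw [hK1bb] at this
        exact this
      have h2 : B (K1 x) ≤ j + 1 := by
        have := B.monotone h1
        rw [hBj] at this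
        exact this
      have h3 : K1⁻¹ (B (K1 x)) ≤ b := by
        have := (K1⁻¹ : O).monotone h2
        rw [← hK1bb, hinv1] at this
        exact this
      linarith
    · have h1 : K1 x = x - b + (j + 1) := by rw [hK1b x h.le, htr2]; ring
      have hxb : x ≤ b + 1 / 2 := hx2.trans (min_le_right _ _)
      have h2 : B (K1 x) < K1 x := (hsg (j + 1) (K1 x) (by push_cast; rw [h1]; linarith)
        (by push_cast; rw [h1]; linarith)).2 hj.add_one
      have h3 : K1⁻¹ (B (K1 x)) < x := by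
        have := (K1⁻¹ : O).strictMono h2
        rw [hinv1] at this
        exact this
      have h5 : x ≤ (b + F c) / 2 := hx2.trans (min_le_left _ _)
      linarith

end Pool.Agent.RV122.TaskNP
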