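import Pool.Agent.Q122.RV.Stmts

set_option autoImplicit false

namespace Pool.Agent.RV122.TaskNext

open Pool.Agent.RV122

theorem main : Pool.Agent.RV122.TaskNext := by
  intro hgrp _ hP hN B F H K a a' i j N hB hSt hExt
  obtain ⟨c, b, b', K1, hac, hca', hHc, hcb, hNb, hbb', sK1, hK1, hK1b, hrel, hlt⟩ := hExt
  obtain ⟨-, hmul, hinv, -⟩ := id hgrp
  -- the map `G1`
  have hG1 : ∀ x, (F⁻¹ * (K1⁻¹ * B * K1)) x = F⁻¹ ((K1⁻¹ * B * K1) x) := fun x => rfl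
  have sG1 : Sm (F⁻¹ * (K1⁻¹ * B * K1)) :=
    hmul _ _ (hinv _ hSt.sF) (hmul _ _ (hmul _ _ (hinv _ sK1) hB.sm) sK1)
  have hfix : ∀ x ≤ c, H ((F⁻¹ * (K1⁻¹ * B * K1)) x) = B (H x) := by
    intro x hx
    rw [hG1, hrel x hx, RelIso.inv_apply_self]
    show H (H⁻¹ (B (H x))) = B (H x)
    rw [RelIso.apply_inv_self]
  have hcb' : c ≤ b' := by linarith
  -- the new `H`
  have key : ∃ H' : O, Sm H' ∧ (∀ x ≤ c, H' x = H x) ∧
      (∀ x ≤ b', H' ((F⁻¹ * (K1⁻¹ * B * K1)) x) = B (H' x)) ∧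
      ∀ x, c ≤ x → x ≤ b' → (F⁻¹ * (K1⁻¹ * B * K1)) x ≠ x := by
    by_cases hi : Even i
    · have hup : ∀ x, c ≤ x → x ≤ b' → x < (F⁻¹ * (K1⁻¹ * B * K1)) x := by
        intro x h1 h2
        have h3 := (hlt x h1 h2).1 hi
        have h4 : F⁻¹ (F x) < F⁻¹ ((K1⁻¹ * B * K1) x) := (F⁻¹).strictMono h3
        rwa [RelIso.inv_apply_self] at h4
      obtain ⟨H', s1, s2, s3⟩ := hP hgrp B _ H c b' hB.sm sG1 hSt.sH hcb' hfix hup
      exact ⟨H', s1, s2, s3, fun x h1 h2 => (hup x h1 h2).ne'⟩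
    · have hdn : ∀ x, c ≤ x → x ≤ b' → (F⁻¹ * (K1⁻¹ * B * K1)) x < x := by
        intro x h1 h2
        have h3 := (hlt x h1 h2).2 hi
        have h4 : F⁻¹ ((K1⁻¹ * B * K1) x) < F⁻¹ (F x) := (F⁻¹).strictMono h3
        rwa [RelIso.inv_apply_self] at h4
      obtain ⟨H', s1, s2, s3⟩ := hN hgrp B _ H c b' hB.sm sG1 hSt.sH hcb' hfix hdn
      exact ⟨H', s1, s2, s3, fun x h1 h2 => (hdn x h1 h2).ne⟩
  obtain ⟨H', sH', hH', hrel', hne⟩ := key
  refine ⟨b, b', H', K1, by linarith, hNb, ?_, fun x hx => hH' x (by linarith),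
    fun x hx => hK1 x (by linarith)⟩
  refine ⟨hinv _ hSt.sF, sK1, sH', hbb', ?_, ?_, ?_, fun x hx => hrel' x hx⟩
  · rw [hK1b]
    push_cast
    ring
  · have h1 : H' a = i := by rw [hH' a hac.le, hSt.Ha]
    rw [← h1]
    exact H'.strictMono (by linarith)
  · by_contra hge
    rw [not_lt] at hge
    set y : ℝ := H'⁻¹ ((i : ℝ) + 1) with hy
    have hHy : H' y = (i : ℝ) + 1 := by rw [hy, RelIso.apply_inv_self]
    have hcy : c < y := by
      apply H'.lt_iff_lt.1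
      rw [hHy, hH' c le_rfl]
      exact hHc
    have hyb : y ≤ b := by
      apply H'.le_iff_le.1
      rw [hHy]
      exact hge
    have h1 := hrel' y (by linarith)
    have h2 : B (H' y) = H' y := by
      rw [hHy]
      have := hB.int (i + 1)
      push_cast at this
      exact this
    rw [h2] at h1
    exact hne y hcy.le (by linarith) (H'.injective h1)

end Pool.Agent.RV122.TaskNext
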