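import Pool.Agent.Q122.RV.Stmts

set_option autoImplicit false

namespace Pool.Agent.RV122.TaskOsc

open Set Filter Topology
open scoped ContDiff
open Pool.Agent.RV122

theorem main : Pool.Agent.RV122.TaskOsc := by
  intro hgrp hsign hgrow B f hB hf
  obtain ⟨hB2, -, -⟩ := hsign B hB
  have hBk : ∀ (k : ℤ) (y : ℝ), B (y + 2 * k) = B y + 2 * k := by
    intro k
    induction k using Int.induction_on with
    | zero => intro y; simp
    | succ i ih =>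
      intro y
      have := hB2 (y + 2 * ((i : ℤ) : ℝ))
      rw [ih] at this
      push_cast at this ⊢
      rw [show y + 2 * ((i : ℝ) + 1) = y + 2 * (i : ℝ) + 2 by ring, this]
      ring
    | pred i ih =>
      intro y
      have := hB2 (y + 2 * (((-(i : ℤ) - 1 : ℤ)) : ℝ))
      have h2 := ih y
      push_cast at this h2 ⊢
      rw [show y + 2 * (-(i : ℝ) - 1) + 2 = y + 2 * (-(i : ℝ)) by ring, h2] at this
      linarith
  have hiv : ∀ (k : ℤ) (y : ℝ), B⁻¹ (y + 2 * k) = B⁻¹ y + 2 * k := by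
    intro k y
    have h1 := hBk k (B⁻¹ y)
    rw [RelIso.apply_inv_self] at h1
    rw [← h1, RelIso.inv_apply_self]
  have hodd : ∀ y : ℝ, B⁻¹ (-y) = -B⁻¹ y := by
    intro y
    have h1 := hB.odd (B⁻¹ y)
    rw [RelIso.apply_inv_self] at h1
    rw [← h1, RelIso.inv_apply_self]
  obtain ⟨δ, hδ⟩ : ∃ δ : ℝ, δ = 1 / 2 - B⁻¹ (1 / 2) := ⟨_, rfl⟩
  have hδ0 : 0 < δ := by
    have h1 := hB.pos (1 / 2) (by norm_num) (by norm_num)
    have h2 : B⁻¹ (1 / 2) < 1 / 2 := by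
      have h3 : B⁻¹ (1 / 2) < B⁻¹ (B (1 / 2)) := (B⁻¹).strictMono h1
      rwa [RelIso.inv_apply_self] at h3
    linarith
  obtain ⟨R, hR, hRw⟩ := hgrow f δ hδ0
  have hconj : ∀ w : ℝ, (R⁻¹⁻¹ * B * R⁻¹)⁻¹ (R w) = R (B⁻¹ w) := by
    intro w
    have : (R⁻¹⁻¹ * B * R⁻¹)⁻¹ = R * B⁻¹ * R⁻¹ := by group
    rw [this, RelIso.mul_apply, RelIso.mul_apply, RelIso.inv_apply_self]
  have hneg : ∀ k : ℤ, (f * (R⁻¹⁻¹ * B * R⁻¹)⁻¹) (R (1 / 2 + 2 * k)) < R (1 / 2 + 2 * k) := by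
    intro k
    rw [RelIso.mul_apply, hconj, hiv]
    have h1 := (hRw (B⁻¹ (1 / 2) + 2 * k)).1
    rwa [show B⁻¹ (1 / 2) + 2 * (k : ℝ) + δ = 1 / 2 + 2 * k by rw [hδ]; ring] at h1
  have hpos : ∀ k : ℤ, R (-(1 / 2) + 2 * k) < (f * (R⁻¹⁻¹ * B * R⁻¹)⁻¹) (R (-(1 / 2) + 2 * k)) := by
    intro k
    rw [RelIso.mul_apply, hconj, hiv, hodd]
    have h1 := (hRw (-(1 / 2) + 2 * k)).2
    rw [show -(1 / 2) + 2 * (k : ℝ) + δ = -B⁻¹ (1 / 2) + 2 * k by rw [hδ]; ring] at h1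
    have h2 := f.strictMono h1
    rwa [RelIso.apply_inv_self] at h2
  have hup : ∀ (N e : ℝ), ∃ k : ℤ, N < R (e + 2 * k) := by
    intro N e
    obtain ⟨k, hk⟩ := exists_nat_gt ((R⁻¹ N - e) / 2)
    refine ⟨k, ?_⟩
    have h1 : R⁻¹ N < e + 2 * ((k : ℤ) : ℝ) := by
      push_cast
      linarith
    have h2 := R.strictMono h1
    rwa [RelIso.apply_inv_self] at h2
  have hdown : ∀ (N e : ℝ), ∃ k : ℤ, R (e + 2 * k) < N := by
    intro N e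
    obtain ⟨k, hk⟩ := exists_nat_gt (-(R⁻¹ N - e) / 2)
    refine ⟨-k, ?_⟩
    have h1 : e + 2 * ((-(k : ℤ) : ℤ) : ℝ) < R⁻¹ N := by
      push_cast
      linarith
    have h2 := R.strictMono h1
    rwa [RelIso.apply_inv_self] at h2
  refine ⟨R⁻¹, hgrp.2.2.1 R hR, ⟨?_, ?_⟩, ?_, ?_⟩
  · intro N
    obtain ⟨k, hk⟩ := hup N (1 / 2)
    exact ⟨_, hk, hneg k⟩
  · intro N
    obtain ⟨k, hk⟩ := hup N (-(1 / 2))
    exact ⟨_, hk, hpos k⟩
  · intro N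
    obtain ⟨k, hk⟩ := hdown N (1 / 2)
    exact ⟨_, hk, hneg k⟩
  · intro N
    obtain ⟨k, hk⟩ := hdown N (-(1 / 2))
    exact ⟨_, hk, hpos k⟩

end Pool.Agent.RV122.TaskOsc
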