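import Pool.Agent.Q122.RV.Stmts

/-! Blueprint lemma `TaskPN` of `MP_608a10_al`. -/

set_option autoImplicit false

namespace Pool.Agent.RV122.TaskPN

open Set Filter Topology Pool.Agent.RV122
open scoped ContDiff

theorem main : Pool.Agent.RV122.TaskPN := by
  intro hGrp hSign hGlue B F H K a a' i j hB hSt hi hj
  obtain ⟨-, -, hs⟩ := hSign B hB
  -- the point `c`
  have h1 : a < H⁻¹ ((i : ℝ) + 1) := by
    have : H a < H (H⁻¹ ((i : ℝ) + 1)) := by
      rw [RelIso.apply_inv_self, hSt.Ha]; linarith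
    exact H.lt_iff_lt.1 this
  have h2 : a < K⁻¹ ((j : ℝ) + 1) := by
    have : K a < K (K⁻¹ ((j : ℝ) + 1)) := by
      rw [RelIso.apply_inv_self]; exact hSt.Ka'
    exact K.lt_iff_lt.1 this
  set m : ℝ := min a' (min (H⁻¹ ((i : ℝ) + 1)) (K⁻¹ ((j : ℝ) + 1))) with hm
  have ham : a < m := lt_min hSt.lt (lt_min h1 h2)
  obtain ⟨c, hac, hcm⟩ := exists_between ham
  have hca' : c ≤ a' := hcm.le.trans (min_le_left _ _)
  have hHc : H c < i + 1 := by
    have : c < H⁻¹ ((i : ℝ) + 1) := hcm.trans_le ((min_le_right _ _).trans (min_le_left _ _))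
    have := H.lt_iff_lt.2 this
    rwa [RelIso.apply_inv_self] at this
  have hKc : K c < j + 1 := by
    have : c < K⁻¹ ((j : ℝ) + 1) := hcm.trans_le ((min_le_right _ _).trans (min_le_right _ _))
    have := K.lt_iff_lt.2 this
    rwa [RelIso.apply_inv_self] at this
  have hHc' : (i : ℝ) < H c := by
    rw [← hSt.Ha]; exact H.lt_iff_lt.2 hac
  have hKc' : (j : ℝ) < K c := hSt.Ka.trans (K.lt_iff_lt.2 hac)
  -- the positions
  have hBH : H c < B (H c) := (hs i (H c) hHc' hHc).1 hi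
  have hBK : B (K c) < K c := (hs j (K c) hKc' hKc).2 hj
  set Gc : ℝ := (H⁻¹ * B * H) c with hGc
  have hcG : c < Gc := by
    have : H c < H Gc := by
      rw [hGc]
      simp only [RelIso.mul_apply, RelIso.apply_inv_self]
      exact hBH
    exact H.lt_iff_lt.1 this
  have hrel : ∀ x ≤ c, K (F ((H⁻¹ * B * H) x)) = B (K x) := fun x hx => hSt.rel x (hx.trans hca')
  have hFG : F Gc < c := by
    have : K (F Gc) < K c := by rw [hrel c le_rfl]; exact hBK
    exact K.lt_iff_lt.1 this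
  obtain ⟨b, hcb, hbG⟩ := exists_between hcG
  obtain ⟨b', hbb', hb'G⟩ := exists_between hbG
  obtain ⟨T, hT, hTx⟩ := hGrp.2.2.2 ((j : ℝ) + 1 - b)
  have hmax : max c (b - ((j : ℝ) + 1 - K c)) < b := max_lt hcb (by linarith)
  obtain ⟨d, hd1, hdb⟩ := exists_between hmax
  have hcd : c < d := (le_max_left _ _).trans_lt hd1
  have hd2 : b - ((j : ℝ) + 1 - K c) < d := (le_max_right _ _).trans_lt hd1
  obtain ⟨K1, hK1, hK1c, hK1d⟩ := hGlue K T hSt.sK hT c d hcd (by rw [hTx]; linarith)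
  have hK1b : K1 b = j + 1 := by
    rw [hK1d b hdb.le, hTx]; ring
  have hu : ∀ x ≤ c, (K1⁻¹ * B * K1) x = F ((H⁻¹ * B * H) x) := by
    intro x hx
    have hy : F ((H⁻¹ * B * H) x) ≤ c := by
      have h3 : (H⁻¹ * B * H) x ≤ Gc := (H⁻¹ * B * H).monotone hx
      exact (F.monotone h3).trans hFG.le
    have h4 : K1 (F ((H⁻¹ * B * H) x)) = B (K1 x) := by
      rw [hK1c _ hy, hK1c x hx, hrel x hx]
    have h5 : (K1⁻¹ * B * K1) x = K1⁻¹ (B (K1 x)) := rfl
    rw [h5, ← h4, RelIso.inv_apply_self]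
  refine ⟨c, b, b', K1, hac, hca', hHc, hcb, (hac.trans hcb).le, hbb', hK1, hK1c, hK1b, hu, ?_⟩
  intro x hcx hxb'
  refine ⟨fun _ => ?_, fun h => absurd trivial h⟩
  calc F x < F Gc := F.lt_iff_lt.2 (hxb'.trans_lt hb'G)
    _ = (K1⁻¹ * B * K1) c := (hu c le_rfl).symm
    _ ≤ (K1⁻¹ * B * K1) x := (K1⁻¹ * B * K1).monotone hcx

end Pool.Agent.RV122.TaskPN
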