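import Pool.Agent.Q122.RV.Stmts

/-! Blueprint piece for MP_608a10_al (helper122's blueprint), proved by helper118. -/

set_option autoImplicit false

namespace Pool.Agent.RV122.TaskPP

open Set Filter Topology Pool.Agent.RV122
open scoped ContDiff

theorem main : Pool.Agent.RV122.TaskPP := by
  intro hG hS hGl B F H K a a' i j hB st hO hi hj N
  obtain ⟨-, hmul, hinv, htr⟩ := hG
  obtain ⟨-, -, hsign⟩ := hS B hB
  set G : O := H⁻¹ * B * H with hGdef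
  have hSG : Sm G := hmul _ _ (hmul _ _ (hinv _ st.sH) hB.sm) st.sH
  have ia : ∀ (f : O) (x : ℝ), f⁻¹ (f x) = x := fun f x => RelIso.inv_apply_self f x
  have ai : ∀ (f : O) (x : ℝ), f (f⁻¹ x) = x := fun f x => RelIso.apply_inv_self f x
  have hlt : ∀ (f : O) (x y : ℝ), f x < f y ↔ x < y := fun f x y => f.lt_iff_lt
  have hle : ∀ (f : O) (x y : ℝ), f x ≤ f y ↔ x ≤ y := fun f x y => f.le_iff_le
  have lti : ∀ (f : O) (x y : ℝ), x < f⁻¹ y ↔ f x < y := by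
    intro f x y
    rw [← hlt f x (f⁻¹ y), ai]
  have ilt : ∀ (f : O) (x y : ℝ), f⁻¹ x < y ↔ x < f y := by
    intro f x y
    rw [← hlt f (f⁻¹ x) y, ai]
  -- the point c
  obtain ⟨c, hac, hca', hHc, hKc⟩ : ∃ c, a < c ∧ c ≤ a' ∧ H c < i + 1 ∧ K c < j + 1 := by
    refine ⟨min a' (min (H⁻¹ ((i : ℝ) + 1 / 2)) (K⁻¹ ((K a + (j + 1)) / 2))), ?_, min_le_left _ _, ?_, ?_⟩
    · refine lt_min st.lt (lt_min ?_ ?_)
      · rw [lti, st.Ha]; linarith
      · rw [lti]; linarith [st.Ka']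
    · have : H (min a' (min (H⁻¹ ((i : ℝ) + 1 / 2)) (K⁻¹ ((K a + (j + 1)) / 2)))) ≤ H (H⁻¹ ((i : ℝ) + 1 / 2)) :=
        (hle H _ _).2 ((min_le_right _ _).trans (min_le_left _ _))
      rw [ai] at this
      linarith
    · have : K (min a' (min (H⁻¹ ((i : ℝ) + 1 / 2)) (K⁻¹ ((K a + (j + 1)) / 2)))) ≤ K (K⁻¹ ((K a + (j + 1)) / 2)) :=
        (hle K _ _).2 ((min_le_right _ _).trans (min_le_right _ _))
      rw [ai] at this
      linarith [st.Ka']
  have hHc0 : (i : ℝ) < H c := by rw [← st.Ha]; exact (hlt H _ _).2 hac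
  have hKc0 : (j : ℝ) < K c := st.Ka.trans ((hlt K _ _).2 hac)
  have hBH : H c < B (H c) := (hsign i (H c) hHc0 hHc).1 hi
  have hBK : K c < B (K c) := (hsign j (K c) hKc0 hKc).1 hj
  have hGc : c < G c := by
    show c < H⁻¹ (B (H c))
    rw [lti]; exact hBH
  have hrel : ∀ x ≤ a', K (F (G x)) = B (K x) := st.rel
  set uc : ℝ := F (G c) with huc
  have hKuc : K uc = B (K c) := hrel c hca'
  have hcuc : c < uc := by
    rw [← hlt K, hKuc]; exact hBK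
  have hFuc : F c < uc := (hlt F _ _).2 hGc
  -- c2
  obtain ⟨c2, hcc2, hc2uc, hFc2⟩ : ∃ c2, c < c2 ∧ c2 < uc ∧ F c2 < uc := by
    refine ⟨min ((c + uc) / 2) (F⁻¹ ((F c + uc) / 2)), ?_, ?_, ?_⟩
    · refine lt_min (by linarith) ?_
      rw [lti]; linarith
    · exact (min_le_left _ _).trans_lt (by linarith)
    · have : F (min ((c + uc) / 2) (F⁻¹ ((F c + uc) / 2))) ≤ F (F⁻¹ ((F c + uc) / 2)) :=
        (hle F _ _).2 (min_le_right _ _)
      rw [ai] at this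
      linarith
  obtain ⟨b, hb, hFb⟩ := hO.1 (max N uc)
  have hNb : N < b := (le_max_left _ _).trans_lt hb
  have hub : uc < b := (le_max_right _ _).trans_lt hb
  obtain ⟨w, hw1, hwb⟩ : ∃ w, max (F b) uc < w ∧ w < b := exists_between (max_lt hFb hub)
  have hFbw : F b < w := (le_max_left _ _).trans_lt hw1
  have hucw : uc < w := (le_max_right _ _).trans_lt hw1
  -- u0
  obtain ⟨T, hTs, hT⟩ := htr (w - c2)
  have hTc2 : T c2 = w := by rw [hT]; ring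
  obtain ⟨u0, hu0s, hu0a, hu0b⟩ := hGl (F * G) T (hmul _ _ st.sF hSG) hTs c c2 hcc2 (by
    rw [hTc2]; exact hucw)
  have hu0c2 : u0 c2 = w := by rw [hu0b c2 le_rfl, hTc2]
  have hu0c : u0 c = uc := hu0a c le_rfl
  have hu0i : u0⁻¹ w = c2 := by rw [← hu0c2, ia]
  -- K0
  set K0 : O := B * K * u0⁻¹ with hK0
  have hSK0 : Sm K0 := hmul _ _ (hmul _ _ hB.sm st.sK) (hinv _ hu0s)
  have hK0y : ∀ y, K0 y = B (K (u0⁻¹ y)) := fun y => rfl
  have hK0K : ∀ y ≤ uc, K0 y = K y := by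
    intro y hy
    have h1 : u0⁻¹ y ≤ c := by
      rw [← hle u0, ai, hu0c]; exact hy
    have h2 : u0 (u0⁻¹ y) = F (G (u0⁻¹ y)) := hu0a _ h1
    rw [ai] at h2
    rw [hK0y, ← hrel _ (h1.trans hca'), ← h2]
  have hBj : B ((j : ℝ) + 1) = j + 1 := by
    have := hB.int (j + 1)
    push_cast at this
    exact this
  have hKc2 : K c2 < j + 1 := by
    have h1 : K c2 < K uc := (hlt K _ _).2 hc2uc
    rw [hKuc] at h1
    have h2 : B (K c) < B ((j : ℝ) + 1) := (hlt B _ _).2 hKc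
    rw [hBj] at h2
    exact h1.trans h2
  have hK0w : K0 w < j + 1 := by
    rw [hK0y, hu0i, ← hBj]
    exact (hlt B _ _).2 hKc2
  -- K1
  obtain ⟨T', hT's, hT'⟩ := htr ((j : ℝ) + 1 - b)
  have hT'b : T' b = j + 1 := by rw [hT']; ring
  obtain ⟨K1, hK1s, hK1a, hK1b⟩ := hGl K0 T' hSK0 hT's w b hwb (by rw [hT'b]; exact hK0w)
  have hK1K : ∀ y ≤ uc, K1 y = K y := fun y hy => (hK1a y (hy.trans hucw.le)).trans (hK0K y hy)
  have hu1 : ∀ x ≤ c, (K1⁻¹ * B * K1) x = F (G x) := by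
    intro x hx
    show K1⁻¹ (B (K1 x)) = F (G x)
    have h1 : F (G x) ≤ uc := (hle F _ _).2 ((hle G _ _).2 hx)
    rw [hK1K x (hx.trans hcuc.le), ← hrel x (hx.trans hca'), ← hK1K _ h1, ia]
  have hu1c2 : (K1⁻¹ * B * K1) c2 = w := by
    show K1⁻¹ (B (K1 c2)) = w
    have h1 : K1 w = B (K c2) := by rw [hK1a w le_rfl, hK0y, hu0i]
    rw [hK1K c2 hc2uc.le, ← h1, ia]
  obtain ⟨b', hbb', hb'w⟩ : ∃ b', b < b' ∧ b' < F⁻¹ w := exists_between (by rw [lti]; exact hFbw)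
  rw [lti] at hb'w
  refine ⟨c, b, b', K1, hac, hca', hHc, hcuc.trans hub, hNb.le, hbb', hK1s,
    fun x hx => hK1K x (hx.trans hcuc.le), ?_, hu1, ?_⟩
  · rw [hK1b b le_rfl, hT'b]
  · intro x hcx hxb'
    refine ⟨fun _ => ?_, fun h => absurd trivial h⟩
    rcases le_total x c2 with hx | hx
    · calc F x ≤ F c2 := (hle F _ _).2 hx
        _ < uc := hFc2
        _ = (K1⁻¹ * B * K1) c := (hu1 c le_rfl).symm
        _ ≤ (K1⁻¹ * B * K1) x := (hle _ _ _).2 hcx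
    · calc F x ≤ F b' := (hle F _ _).2 hxb'
        _ < w := hb'w
        _ = (K1⁻¹ * B * K1) c2 := hu1c2.symm
        _ ≤ (K1⁻¹ * B * K1) x := (hle _ _ _).2 hx

end Pool.Agent.RV122.TaskPP
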