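import Pool.Agent.Q122.RV.Stmts

set_option autoImplicit false

namespace Pool.Agent.RV122.TaskPatch

open Set Filter Topology Pool.Agent.RV122
open scoped ContDiff

theorem main : Pool.Agent.RV122.TaskPatch := by
  intro hmk hder φ hloc hup hdown
  have hsm : ContDiff ℝ ∞ φ := by
    rw [contDiff_iff_contDiffAt]
    intro x
    obtain ⟨f, hf, he⟩ := hloc x
    exact (hf.1.contDiffAt).congr_of_eventuallyEq he
  have hpos : ∀ x, 0 < deriv φ x := by
    intro x
    obtain ⟨f, hf, he⟩ := hloc x
    have : deriv φ x = deriv (fun y => f y) x := Filter.EventuallyEq.deriv_eq he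
    rw [this]
    exact hder f hf x
  have hmono : StrictMono φ := strictMono_of_deriv_pos hpos
  refine hmk φ hsm hpos ?_ ?_
  · refine tendsto_atTop_atTop_of_monotone hmono.monotone fun b => ?_
    obtain ⟨x, hx⟩ := hup b
    exact ⟨x, hx.le⟩
  · refine tendsto_atBot_atBot_of_monotone hmono.monotone fun b => ?_
    obtain ⟨x, hx⟩ := hdown b
    exact ⟨x, hx.le⟩

end Pool.Agent.RV122.TaskPatch
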