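import Pool.Agent.Q122.RV.Stmts

/-! TaskPropN of the blueprint RV (helper122's MP_608a10_al), proved by helper6. -/

set_option autoImplicit false

namespace Pool.Agent.RV122.TaskPropN
open Set Filter Topology
open Pool.Agent.RV122

theorem main : Pool.Agent.RV122.TaskPropN := by
  intro hgrp B G H c b' hB hGs hH hcb hrel hlt
  obtain ⟨h1, hmul, hinv, -⟩ := hgrp
  have hpow : ∀ (f : O), Sm f → ∀ n : ℕ, Sm (f ^ n) := by
    intro f hf n
    induction n with
    | zero => rw [pow_zero]; exact h1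
    | succ n ih => rw [pow_succ]; exact hmul _ _ ih hf
  have hGc : ∀ x ≤ c, G x ≤ c := fun x hx => (G.monotone hx).trans (hlt c le_rfl hcb).le
  have hex : ∃ n : ℕ, (G ^ n) b' ≤ c := by
    by_contra hcon
    push Not at hcon
    set s : ℕ → ℝ := fun n => (G ^ n) b' with hs
    have hs1 : ∀ n, s (n + 1) = G (s n) := fun n => by
      simp only [hs, pow_succ']; rfl
    have hsb : ∀ n, s n ≤ b' := by
      intro n
      induction n with
      | zero => exact le_of_eq (by simp only [hs, pow_zero]; rfl)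
      | succ n ih => rw [hs1]; exact (hlt _ (hcon n).le ih).le.trans ih
    have hanti : Antitone s := antitone_nat_of_succ_le fun n => by
      rw [hs1]; exact (hlt _ (hcon n).le (hsb n)).le
    have hbdd : BddBelow (range s) := ⟨c, by rintro _ ⟨n, rfl⟩; exact (hcon n).le⟩
    have hlim := tendsto_atTop_ciInf hanti hbdd
    set L := ⨅ n, s n with hL
    have hlim2 : Tendsto (fun n => s (n + 1)) atTop (𝓝 L) := hlim.comp (tendsto_add_atTop_nat 1)
    have hlim3 : Tendsto (fun n => s (n + 1)) atTop (𝓝 (G L)) := by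
      simp_rw [hs1]
      exact (G.continuous.tendsto L).comp hlim
    have hGL : G L = L := tendsto_nhds_unique hlim3 hlim2
    have hcL : c ≤ L := ge_of_tendsto' hlim fun n => (hcon n).le
    have hLb : L ≤ b' := le_of_tendsto' hlim hsb
    have := hlt L hcL hLb
    linarith
  obtain ⟨n, hn⟩ := hex
  have key : ∀ (n : ℕ), ∀ x ≤ c, H ((G ^ n) x) = (B ^ n) (H x) := by
    intro n
    induction n with
    | zero => intro x _; simp only [pow_zero]; rfl
    | succ n ih =>
      intro x hx
      have e1 : (G ^ (n + 1)) x = (G ^ n) (G x) := by rw [pow_succ]; rfl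
      have e2 : (B ^ (n + 1)) (H x) = (B ^ n) (B (H x)) := by rw [pow_succ]; rfl
      rw [e1, e2, ih (G x) (hGc x hx), hrel x hx]
  refine ⟨(B ^ n)⁻¹ * H * G ^ n, hmul _ _ (hmul _ _ (hinv _ (hpow B hB n)) hH) (hpow G hGs n), ?_, ?_⟩
  · intro x hx
    have : ((B ^ n)⁻¹ * H * G ^ n) x = (B ^ n)⁻¹ (H ((G ^ n) x)) := rfl
    rw [this, key n x hx]
    exact RelIso.inv_apply_self _ _
  · intro x hx
    have e0 : ((B ^ n)⁻¹ * H * G ^ n) (G x) = (B ^ n)⁻¹ (H ((G ^ n) (G x))) := rfl
    have e1 : ((B ^ n)⁻¹ * H * G ^ n) x = (B ^ n)⁻¹ (H ((G ^ n) x)) := rfl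
    have e2 : (G ^ n) (G x) = G ((G ^ n) x) := by
      have h := ((Commute.refl G).pow_left n).eq
      exact DFunLike.congr_fun h x
    have e3 : ∀ z, (B ^ n)⁻¹ (B z) = B ((B ^ n)⁻¹ z) := by
      intro z
      have h := ((Commute.refl B).pow_left n).inv_left.eq
      exact DFunLike.congr_fun h z
    have hle : (G ^ n) x ≤ c := ((G ^ n).monotone hx).trans hn
    rw [e0, e1, e2, hrel _ hle, e3]

end Pool.Agent.RV122.TaskPropN
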