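import Pool.Agent.Q122.RV.Stmts

set_option autoImplicit false

namespace Pool.Agent.RV122.TaskPropP

open Set Filter Topology
open Pool.Agent.RV122

theorem main : Pool.Agent.RV122.TaskPropP := by
  intro hgrp B G H c b' hB hG hH hcb hrel hlt
  obtain ⟨-, hmul, hinv, -⟩ := hgrp
  have step : ∀ n : ℕ, (∀ m < n, (⇑G)^[m] c ≤ b') → c ≤ (⇑G)^[n] c ∧ ∃ H' : O, Sm H' ∧
      (∀ x ≤ c, H' x = H x) ∧ ∀ x ≤ (⇑G)^[n] c, H' (G x) = B (H' x) := by
    intro n
    induction n with
    | zero => intro _; exact ⟨le_rfl, H, hH, fun x _ => rfl, hrel⟩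
    | succ n ih =>
      intro hm
      obtain ⟨hc, H', hS, h1, h2⟩ := ih (fun m hmn => hm m (by omega))
      have hn : (⇑G)^[n] c ≤ b' := hm n (by omega)
      have hltn := hlt _ hc hn
      have key : ∀ x ≤ G ((⇑G)^[n] c), (B * H' * G⁻¹) x = H' x := by
        intro x hx
        have hy : G⁻¹ x ≤ (⇑G)^[n] c := by
          have h := (G⁻¹).monotone hx
          rwa [RelIso.inv_apply_self] at h
        show B (H' (G⁻¹ x)) = H' x
        rw [← h2 _ hy, RelIso.apply_inv_self]
      rw [Function.iterate_succ_apply']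
      refine ⟨hc.trans hltn.le, B * H' * G⁻¹, hmul _ _ (hmul _ _ hB hS) (hinv _ hG), ?_, ?_⟩
      · intro x hx
        rw [key x (hx.trans (hc.trans hltn.le))]
        exact h1 x hx
      · intro x hx
        rw [key x hx]
        show B (H' (G⁻¹ (G x))) = B (H' x)
        rw [RelIso.inv_apply_self]
  have hex : ∃ n : ℕ, b' < (⇑G)^[n] c := by
    by_contra hcon
    push Not at hcon
    have hmono : Monotone fun n : ℕ => (⇑G)^[n] c := by
      refine monotone_nat_of_le_succ fun n => ?_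
      rw [Function.iterate_succ_apply']
      exact (hlt _ (step n fun m _ => hcon m).1 (hcon n)).le
    have hbdd : BddAbove (Set.range fun n : ℕ => (⇑G)^[n] c) :=
      ⟨b', by rintro _ ⟨n, rfl⟩; exact hcon n⟩
    have hlim := tendsto_atTop_ciSup hmono hbdd
    set L := ⨆ n : ℕ, (⇑G)^[n] c
    have h1 : Tendsto (fun n : ℕ => (⇑G)^[n + 1] c) atTop (𝓝 L) :=
      (tendsto_add_atTop_iff_nat 1).2 hlim
    have h2 : Tendsto (fun n : ℕ => G ((⇑G)^[n] c)) atTop (𝓝 (G L)) :=
      (G.continuous.tendsto L).comp hlim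
    have h3 : G L = L := by
      refine tendsto_nhds_unique h2 ?_
      simpa only [Function.iterate_succ_apply'] using h1
    have hcL : c ≤ L := le_ciSup hbdd 0
    have hLb : L ≤ b' := ciSup_le hcon
    exact absurd h3 (hlt L hcL hLb).ne'
  classical
  obtain ⟨-, H', hS, h1, h2⟩ := step (Nat.find hex) fun m hm => not_lt.1 (Nat.find_min hex hm)
  exact ⟨H', hS, h1, fun x hx => h2 x (hx.trans (Nat.find_spec hex).le)⟩

end Pool.Agent.RV122.TaskPropP
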