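import Pool.Agent.Q122.RV.Stmts

set_option autoImplicit false

namespace Pool.Agent.RV122.TaskRevB

open Set Filter Topology
open scoped ContDiff

theorem main : Pool.Agent.RV122.TaskRevB := by
  intro hg B hB P hP
  obtain ⟨_, hmul, hinv, htr⟩ := hg
  obtain ⟨T, hT, hTx⟩ := htr 1
  have key : T⁻¹ * B * T = B⁻¹ := by
    apply OrderIso.ext
    funext x
    change T⁻¹ (B (T x)) = B⁻¹ x
    rw [hTx, hB.shift, ← hTx (B⁻¹ x)]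
    exact T.symm_apply_apply _
  have hsm : Sm (P⁻¹ * B * P) := hmul _ _ (hmul _ _ (hinv _ hP) hB.sm) hP
  have hh : Sm (P⁻¹ * T⁻¹ * P) := hmul _ _ (hmul _ _ (hinv _ hP) (hinv _ hT)) hP
  have hrel : P⁻¹ * T⁻¹ * P * (P⁻¹ * B * P) * (P⁻¹ * T⁻¹ * P)⁻¹ = (P⁻¹ * B * P)⁻¹ := by
    have e : P⁻¹ * T⁻¹ * P * (P⁻¹ * B * P) * (P⁻¹ * T⁻¹ * P)⁻¹ = P⁻¹ * (T⁻¹ * B * T) * P := by
      group
    rw [e, key]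
    group
  refine ⟨⟨hsm, ⟨_, hh, hrel⟩⟩, ⟨hinv _ hsm, ⟨_, hh, ?_⟩⟩⟩
  have h2 : (P⁻¹ * T⁻¹ * P * (P⁻¹ * B * P) * (P⁻¹ * T⁻¹ * P)⁻¹)⁻¹ = ((P⁻¹ * B * P)⁻¹)⁻¹ := by
    rw [hrel]
  rw [← h2]
  group

end Pool.Agent.RV122.TaskRevB
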