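import Pool.Agent.Q122.RV.Stmts

/-!
# `TaskSeq`: the sequence of states, by recursion from `Double`
-/

set_option autoImplicit false

namespace Pool.Agent.RV122.TaskSeq

open Set Filter Topology

theorem main : Pool.Agent.RV122.TaskSeq := by
  intro hD B F H K a a' i j hB hS hF
  -- a state at stage `n`
  let Q : ℕ → Type := fun n =>
    {s : O × O × ℝ × ℝ // St B F s.1 s.2.1 s.2.2.1 s.2.2.2 (i + n) (j + n)}
  have step : ∀ (n : ℕ) (s : Q n), ∃ t : Q (n + 1),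
      s.1.2.2.1 < t.1.2.2.1 ∧ (n : ℝ) ≤ t.1.2.2.1 ∧ (∀ x ≤ s.1.2.2.1, t.1.1 x = s.1.1 x) ∧
      ∀ x ≤ s.1.2.2.1, t.1.2.1 x = s.1.2.1 x := by
    intro n s
    obtain ⟨⟨H1, K1, a1, a1'⟩, hs⟩ := s
    obtain ⟨a2, a2', H2, K2, h1, h2, h3, h4, h5⟩ :=
      hD B F H1 K1 a1 a1' (i + n) (j + n) (n : ℝ) hB hs hF
    refine ⟨⟨(H2, K2, a2, a2'), ?_⟩, h1, h2, h4, h5⟩
    have e1 : i + ((n + 1 : ℕ) : ℤ) = i + n + 1 := by push_cast; ring
    have e2 : j + ((n + 1 : ℕ) : ℤ) = j + n + 1 := by push_cast; ring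
    show St B F H2 K2 a2 a2' (i + ((n + 1 : ℕ) : ℤ)) (j + ((n + 1 : ℕ) : ℤ))
    rw [e1, e2]
    exact h3
  choose nx hnx using step
  have h0 : St B F H K a a' (i + ((0 : ℕ) : ℤ)) (j + ((0 : ℕ) : ℤ)) := by simpa using hS
  let q : (n : ℕ) → Q n := fun n => Nat.rec (motive := Q) ⟨(H, K, a, a'), h0⟩ (fun n s => nx n s) n
  have hq : ∀ n, q (n + 1) = nx n (q n) := fun n => rfl
  have hlt : ∀ n, (q n).1.2.2.1 < (q (n + 1)).1.2.2.1 := by
    intro n; rw [hq]; exact (hnx n (q n)).1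
  have hmono : StrictMono (fun n => (q n).1.2.2.1) := strictMono_nat_of_lt_succ hlt
  refine ⟨fun n => (q n).1.2.2.1, fun n => (q n).1.2.2.2, fun n => (q n).1.1,
    fun n => (q n).1.2.1, rfl, rfl, rfl, hmono, ?_, fun n => (q n).2, ?_⟩
  · intro n
    show (n : ℝ) ≤ (q (n + 1)).1.2.2.1
    rw [hq]; exact (hnx n (q n)).2.1
  · intro n m hnm
    induction m, hnm using Nat.le_induction with
    | base => exact fun x _ => ⟨rfl, rfl⟩
    | succ m hnm ih =>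
      intro x hx
      have hx' : x ≤ (q m).1.2.2.1 := le_trans hx (hmono.monotone hnm)
      obtain ⟨i1, i2⟩ := ih x hx
      have e := hnx m (q m)
      refine ⟨?_, ?_⟩
      · show (q (m + 1)).1.1 x = _
        rw [hq, e.2.2.1 x hx']; exact i1
      · show (q (m + 1)).1.2.1 x = _
        rw [hq, e.2.2.2 x hx']; exact i2

end Pool.Agent.RV122.TaskSeq
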