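import Pool.Agent.Q122.RV.Stmts

set_option autoImplicit false

namespace Pool.Agent.RV122.TaskSign

open Set Filter Topology

theorem main : Pool.Agent.RV122.TaskSign := by
  intro B hB
  have hBi : ∀ x, B (B⁻¹ x) = x := fun x => B.apply_symm_apply x
  have hiB : ∀ x, B⁻¹ (B x) = x := fun x => B.symm_apply_apply x
  have h2 : ∀ x, B (x + 2) = B x + 2 := by
    intro x
    have e1 : B (B x + 1) = x + 1 := by rw [hB.shift, hiB]
    have e2 : B⁻¹ (x + 1) = B x + 1 := by rw [← e1, hiB]
    have e3 : x + 2 = (x + 1) + 1 := by ring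
    rw [e3, hB.shift, e2]
    ring
  have hper : ∀ j : ℤ, ∀ x, B (x + 2 * (j : ℝ)) = B x + 2 * (j : ℝ) := by
    intro j
    induction j using Int.induction_on with
    | zero => intro x; simp
    | succ i ih =>
      intro x
      have e1 : x + 2 * (((i : ℤ) + 1 : ℤ) : ℝ) = (x + 2 * ((i : ℤ) : ℝ)) + 2 := by push_cast; ring
      rw [e1, h2, ih]
      push_cast
      ring
    | pred i ih =>
      intro x
      have e1 : x + 2 * ((-(i : ℤ) : ℤ) : ℝ) = (x + 2 * ((-(i : ℤ) - 1 : ℤ) : ℝ)) + 2 := by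
        push_cast; ring
      have e2 := ih x
      rw [e1, h2] at e2
      push_cast at e2 ⊢
      linarith
  have hlt : ∀ x y, x < y → B x < B y := fun x y h => B.strictMono h
  have heven : ∀ (j : ℤ) (x : ℝ), 2 * (j : ℝ) < x → x < 2 * j + 1 → x < B x := by
    intro j x h1 h2'
    have e1 := hB.pos (x - 2 * j) (by linarith) (by linarith)
    have e2 := hper j (x - 2 * j)
    rw [sub_add_cancel] at e2
    linarith
  refine ⟨h2, fun x => ?_, fun k x hk1 hk2 => ⟨?_, ?_⟩⟩
  · have h1 := Int.floor_le x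
    have h3 := Int.lt_floor_add_one x
    have e1 : ((⌊x⌋ : ℤ) : ℝ) ≤ B x := by
      rw [← hB.int ⌊x⌋]
      exact B.monotone h1
    have e2 : B x < ((⌊x⌋ + 1 : ℤ) : ℝ) := by
      rw [← hB.int (⌊x⌋ + 1)]
      refine hlt _ _ ?_
      push_cast
      exact h3
    push_cast at e2
    rw [abs_lt]
    constructor <;> linarith
  · rintro ⟨j, rfl⟩
    refine heven j x ?_ ?_
    · push_cast at hk1; linarith
    · push_cast at hk2; linarith
  · rintro ⟨j, rfl⟩
    push_cast at hk1 hk2
    have e1 := heven j (x - 1) (by linarith) (by linarith)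
    have e2 : B⁻¹ (x - 1) < x - 1 := by
      have e3 : B (B⁻¹ (x - 1)) < B (x - 1) := by rw [hBi]; exact e1
      exact B.strictMono.lt_iff_lt.1 e3
    have e4 := hB.shift (x - 1)
    rw [sub_add_cancel] at e4
    linarith

end Pool.Agent.RV122.TaskSign
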