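import Pool.Agent.Q122.RV.Stmts

set_option autoImplicit false

namespace Pool.Agent.RV122.TaskStart

open Set Filter Topology Pool.Agent.RV122
open scoped ContDiff

theorem inv_self (f : O) (x : ℝ) : f⁻¹ (f x) = x := f.symm_apply_apply x
theorem self_inv (f : O) (x : ℝ) : f (f⁻¹ x) = x := f.apply_symm_apply x

theorem main : Pool.Agent.RV122.TaskStart := by
  intro hGrp hSign hGlue hLeft B F hM hF hO
  obtain ⟨-, hmul, hinv, htr⟩ := hGrp
  obtain ⟨T, hT, hTx⟩ := htr (1 / 2)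
  set P : O := T⁻¹ * B * T * B⁻¹ with hP
  have hPs : Sm P := hmul _ _ (hmul _ _ (hmul _ _ (hinv _ hT) hM.sm) hT) (hinv _ hM.sm)
  have hPx : ∀ x, P (B x) = T⁻¹ (B (T x)) := by
    intro x
    show T⁻¹ (B (T (B⁻¹ (B x)))) = _
    rw [inv_self]
  obtain ⟨-, hB1, -⟩ := hSign B hM
  set C : ℝ := max 1 (P⁻¹ (F 0 + 1)) with hC
  have hC1 : 1 ≤ C := le_max_left _ _
  have hPC : F 0 + 1 ≤ P C := by
    have h1 : P (P⁻¹ (F 0 + 1)) ≤ P C := P.monotone (le_max_right _ _)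
    rwa [self_inv] at h1
  have hFC : F (-C) ≤ F 0 := F.monotone (by linarith)
  obtain ⟨F1, hF1, hF1a, hF1b⟩ := hGlue F P hF hPs (-C) C (by linarith) (by linarith)
  set i : ℤ := ⌈C⌉ + 2 with hi
  have hiC : C + 2 ≤ (i : ℝ) := by
    rw [hi]
    push_cast
    have := Int.le_ceil C
    linarith
  have hS1 : Sm (1 : O) := by
    have h1 := hmul _ _ hT (hinv _ hT)
    rwa [mul_inv_cancel] at h1
  have hrel : ∀ x, C + 1 ≤ x → T (F1 (((1 : O)⁻¹ * B * 1) x)) = B (T x) := by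
    intro x hx
    have e1 : ((1 : O)⁻¹ * B * 1) x = B x := by
      rw [inv_one, one_mul, mul_one]
    rw [e1]
    have h1 := abs_lt.1 (hB1 x)
    rw [hF1b (B x) (by linarith), hPx, self_inv]
  have hO1 : OscM F1 := by
    constructor
    · intro N
      obtain ⟨b, hb, hb'⟩ := hO.1 (min N (-C))
      refine ⟨b, hb.trans_le (min_le_left _ _), ?_⟩
      rw [hF1a b (hb.le.trans (min_le_right _ _))]
      exact hb'
    · intro N
      obtain ⟨b, hb, hb'⟩ := hO.2 (min N (-C))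
      refine ⟨b, hb.trans_le (min_le_left _ _), ?_⟩
      rw [hF1a b (hb.le.trans (min_le_right _ _))]
      exact hb'
  obtain ⟨H1, K1, hH1, hK1, -, hrel1, hint⟩ := hLeft B F1 1 T (i : ℝ) (C + 1) i i hM hF1 hS1 hT
    (by linarith) rfl (by rw [hTx]; linarith) (by rw [hTx]; linarith) hrel hO1
  set n : ℤ := min i (⌊H1 (-C)⌋ - 1) with hn
  obtain ⟨m, hm1, hm2⟩ := hint n (min_le_left _ _)
  have hn1 : (n : ℝ) + 1 ≤ H1 (-C) := by
    have h1 : n ≤ ⌊H1 (-C)⌋ - 1 := min_le_right _ _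
    have h2 : (n : ℝ) ≤ (⌊H1 (-C)⌋ : ℝ) - 1 := by exact_mod_cast h1
    have h3 := Int.floor_le (H1 (-C))
    linarith
  have hn2 : H1⁻¹ ((n : ℝ) + 1) ≤ -C := by
    have h1 : H1⁻¹ ((n : ℝ) + 1) ≤ H1⁻¹ (H1 (-C)) := (H1⁻¹).monotone hn1
    rwa [inv_self] at h1
  refine ⟨H1, K1, H1⁻¹ (n : ℝ), H1⁻¹ ((n : ℝ) + 1), n, m, hF, hH1, hK1, ?_, self_inv _ _, hm1, hm2, ?_⟩
  · exact (H1⁻¹).strictMono (by linarith)
  · intro x hx
    have h1 : H1 x ≤ (n : ℝ) + 1 := by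
      have h2 := H1.monotone hx
      rwa [self_inv] at h2
    have h3 : B (H1 x) ≤ (n : ℝ) + 1 := by
      have h4 := B.monotone h1
      have h5 := hM.int (n + 1)
      push_cast at h5
      rwa [h5] at h4
    have h6 : (H1⁻¹ * B * H1) x ≤ -C := by
      have h7 : H1⁻¹ (B (H1 x)) ≤ H1⁻¹ ((n : ℝ) + 1) := (H1⁻¹).monotone h3
      exact h7.trans hn2
    rw [← hF1a _ h6]
    exact hrel1 x

end Pool.Agent.RV122.TaskStart
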