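import Pool.Agent.Q122.RV.Stmts

set_option autoImplicit false

namespace Pool.Agent.RV122.TaskStep

open Set Filter Topology

theorem main : Pool.Agent.RV122.TaskStep := by
  intro hG hS hGl hPP hNN hNP hPN hP hN hNext B F H K a a' i j N hB hst hosc
  rcases Int.even_or_odd i with hi | hi <;> rcases Int.even_or_odd j with hj | hj
  · have h := hPP hG hS hGl B F H K a a' i j hB hst hosc hi hj N
    rw [← eq_true hi] at h
    obtain ⟨b, b', H1, K1, h1, h2, h3, h4, h5⟩ := hNext hG hS hP hN B F H K a a' i j N hB hst h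
    exact ⟨b, b', H1, K1, h1, fun _ => h2, h3, h4, h5⟩
  · have h := hPN hG hS hGl B F H K a a' i j hB hst hi hj
    rw [← eq_true hi] at h
    obtain ⟨b, b', H1, K1, h1, h2, h3, h4, h5⟩ := hNext hG hS hP hN B F H K a a' i j a hB hst h
    refine ⟨b, b', H1, K1, h1, fun he => ?_, h3, h4, h5⟩
    exact absurd he (Int.not_even_iff_odd.2 (hi.add_odd hj))
  · have h := hNP hG hS hGl B F H K a a' i j hB hst hi hj
    rw [← eq_false (Int.not_even_iff_odd.2 hi)] at h
    obtain ⟨b, b', H1, K1, h1, h2, h3, h4, h5⟩ := hNext hG hS hP hN B F H K a a' i j a hB hst h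
    refine ⟨b, b', H1, K1, h1, fun he => ?_, h3, h4, h5⟩
    exact absurd he (Int.not_even_iff_odd.2 (hi.add_even hj))
  · have h := hNN hG hS hGl B F H K a a' i j hB hst hosc hi hj N
    rw [← eq_false (Int.not_even_iff_odd.2 hi)] at h
    obtain ⟨b, b', H1, K1, h1, h2, h3, h4, h5⟩ := hNext hG hS hP hN B F H K a a' i j N hB hst h
    exact ⟨b, b', H1, K1, h1, fun _ => h2, h3, h4, h5⟩

end Pool.Agent.RV122.TaskStep
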