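import Pool.Agent.Q122.RV.Stmts

set_option autoImplicit false

namespace Pool.Agent.RV122.TaskTwo

open Pool.Agent.RV122

theorem main : Pool.Agent.RV122.TaskTwo := by
  intro hG hSign hRev hGlue hHalf hLeft hStart B F hB hF hP hM
  obtain ⟨H, K, a, a', i, j, hst⟩ := hStart hG hSign hGlue hLeft B F hB hF hM
  obtain ⟨H1, K1, hH1, hK1, _, hrel, _⟩ := hHalf B F H K a a' i j hB hst hP
  have rK := hRev hG B hB K1 hK1
  have rH := hRev hG B hB H1 hH1
  refine ⟨K1⁻¹ * B * K1, (H1⁻¹ * B * H1)⁻¹, rK.1.1, rH.2.1, rK.1.2, rH.2.2, ?_⟩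
  have e : K1 * (F * (H1⁻¹ * B * H1)) = B * K1 := by
    apply RelIso.ext
    intro x
    exact hrel x
  rw [eq_mul_inv_iff_mul_eq, mul_assoc K1⁻¹ B K1, ← e, inv_mul_cancel_left]

end Pool.Agent.RV122.TaskTwo
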